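import Pool.Agent.U73.LS.Stm
import Pool.Agent.U73.LR.Loc

set_option autoImplicit false

/-!
# Packages for the law of `|Δ| / N` over the semistable curves, second part (helper73)
-/

namespace Pool.Agent.U73.LS

open Finset Filter Topology
open Pool.Agent.U73.LR

/-- the discriminant -/
def Dz (a b : ℤ) : ℤ := (a ^ 3 - b ^ 2) / 1728

/-- the conductor -/
def Nz (a b : ℤ) : ℕ := ∏ p ∈ (Dz a b).natAbs.primeFactors, p

/-- the ratio -/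
def rs (a b : ℤ) : ℕ := (Dz a b).natAbs / Nz a b

/-- the exponent of `p` in `1728` -/
def ee (p : ℕ) : ℕ := if p = 2 then 6 else if p = 3 then 3 else 0

/-- semistable at `p`, and `p ^ g` divides the ratio -/
def G (p g : ℕ) (a b : ℤ) : Prop :=
  Sp p a b ∧ (g = 0 ∨ (p : ℤ) ^ (g + 1 + ee p) ∣ a ^ 3 - b ^ 2)

/-- the local densities of the semistable pairs -/
noncomputable def sd (p : ℕ) : ℝ := if p = 2 then 3 / 512 else if p = 3 then 8 / 243 else 1 - 1 / (p : ℝ) ^ 2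

/-- the local law -/
noncomputable def gd (p g : ℕ) : ℝ := if g = 0 then 1 else 1 / ((p : ℝ) ^ g * ((p : ℝ) + 1))

/-- the exponents of the ratio are local conditions -/
def S_FACT : Prop := (∀ a b : ℤ, Sm a b → 1728 * Dz a b = a ^ 3 - b ^ 2 ∧ Dz a b ≠ 0 ∧
    (Dz a b).natAbs = rs a b * Nz a b ∧ 0 < rs a b) ∧
  ∀ a b : ℤ, Sm a b → ∀ p : ℕ, p.Prime → ∀ g, (p ^ g ∣ rs a b ↔ G p g a b)

/-- the local conditions are periodic, and their densities -/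
def S_DEN : Prop := (∀ p g : ℕ, Per (p ^ (g + 7)) (G p g)) ∧
  ∀ p : ℕ, p.Prime → ∀ g : ℕ, rc (p ^ (g + 7)) (G p g) = sd p * gd p g

/-- the Euler product -/
def S_EUL : Prop := Tendsto (fun z => 4 * ∏ p ∈ Nat.primesBelow z, sd p) atTop
  (𝓝 (1 / (144 * Real.pi ^ 2)))

/-- the uniform bound for the tail -/
def S_HI : Prop := ∀ ε : ℝ, 0 < ε → ∃ C : ℝ, ∀ X K : ℝ, 1 ≤ X → 1 ≤ K →
  cnt X (fun a b => Sm a b ∧ K ≤ rs a b) ≤ C * (X ^ 5 * K ^ (-1 + ε) + X ^ (4 + ε))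

/-- each curve is counted once -/
def S_ISO : Prop := ∀ c d c' d' : ℤ, Sm c d → Sm c' d' → ∀ u : ℚ, u ≠ 0 → (c' : ℚ) = u ^ 4 * c →
  (d' : ℚ) = u ^ 6 * d → c' = c ∧ d' = d

/-- the mean of the logarithm under the law -/
def S_LOGM : Prop := ∀ μ : ℕ → ℝ, (∀ m, 0 ≤ μ m) → μ 0 = 0 → HasSum μ 1 →
  (∀ n : ℕ, 1 ≤ n → ∑' m, ({m | n ∣ m} : Set ℕ).indicator μ m =
    1 / ((n : ℝ) * ∏ p ∈ n.primeFactors, ((p : ℝ) + 1))) →
  Summable (fun m : ℕ => Real.log m * μ m) →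
  ((∑' m : ℕ, Real.log m * μ m : ℝ) : ℂ) = - deriv riemannZeta 2 / riemannZeta 2

/-- point masses and tails from the divisibility probabilities -/
def S_TAIL : Prop := ∀ μ : ℕ → ℝ, (∀ m, 0 ≤ μ m) → μ 0 = 0 → HasSum μ 1 →
  (∀ n : ℕ, 1 ≤ n → ∑' m, ({m | n ∣ m} : Set ℕ).indicator μ m =
    1 / ((n : ℝ) * ∏ p ∈ n.primeFactors, ((p : ℝ) + 1))) →
  (∀ m, 1 ≤ m → Tendsto (fun z => ∏ p ∈ Nat.primesBelow z,
      (gd p (m.factorization p) - gd p (m.factorization p + 1))) atTop (𝓝 (μ m))) →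
  Tendsto (fun z => ∏ p ∈ Nat.primesBelow z, (1 - 1 / ((p : ℝ) * ((p : ℝ) + 1)))) atTop (𝓝 (μ 1)) ∧
  (∀ n : ℕ, 1 ≤ n → μ n = μ 1 / n * ∏ p ∈ n.primeFactors, (((p : ℝ) - 1) / ((p : ℝ) ^ 2 + p - 1))) ∧
  (∀ K : ℕ, 1 ≤ K → 1 / (6 * (K : ℝ)) ≤ ∑' m, ({m | K ≤ m} : Set ℕ).indicator μ m) ∧
  (∀ ε : ℝ, 0 < ε → ∃ C : ℝ, ∀ K : ℕ, 1 ≤ K →
    ∑' m, ({m | K ≤ m} : Set ℕ).indicator μ m ≤ C * (K : ℝ) ^ (-1 + ε))

end Pool.Agent.U73.LS
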