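import Mathlib

set_option autoImplicit false

/-!
# The invariants `(c₄, c₆)` of the semistable integral Weierstrass curves (helper73)

Kraus's conditions in the semistable case, with a short proof (`b₂ = -c₆`).
-/

namespace Pool.Agent.U73.LS

/-- semistable at 2 -/
def K2 (c d : ℤ) : Prop := (¬ (2 : ℤ) ∣ c ∧ d % 4 = 3 ∧ (64 : ℤ) ∣ c ^ 3 - d ^ 2) ∨
  ((16 : ℤ) ∣ c ∧ d % 32 = 8)

/-- semistable at 3 -/
def K3 (c d : ℤ) : Prop := (¬ (3 : ℤ) ∣ c ∧ (27 : ℤ) ∣ c ^ 3 - d ^ 2) ∨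
  ((3 : ℤ) ∣ c ∧ ¬ (9 : ℤ) ∣ c ∧ (27 : ℤ) ∣ d)

/-- semistable at `p` -/
def Sp (p : ℕ) (c d : ℤ) : Prop :=
  if p = 2 then K2 c d else if p = 3 then K3 c d else ¬ ((p : ℤ) ∣ c ∧ (p : ℤ) ∣ d)

/-- the invariants of a semistable curve -/
def Sm (c d : ℤ) : Prop := ∃ W : WeierstrassCurve ℤ, W.Δ ≠ 0 ∧ IsCoprime W.c₄ W.Δ ∧ W.c₄ = c ∧ W.c₆ = d

theorem not_dvd_of_coprime {a b : ℤ} (h : IsCoprime a b) {p : ℕ} (hp : p.Prime) (h1 : (p : ℤ) ∣ a)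
    (h2 : (p : ℤ) ∣ b) : False := by
  have h3 : IsUnit (p : ℤ) := h.isUnit_of_dvd' h1 h2
  rw [Int.isUnit_iff] at h3
  have := hp.two_le
  omega

theorem sm_sp {c d : ℤ} (h : Sm c d) {p : ℕ} (hp : p.Prime) : Sp p c d := by
  obtain ⟨W, hΔ, hco, h4, h6⟩ := h
  have hrel : 1728 * W.Δ = c ^ 3 - d ^ 2 := by rw [← h4, ← h6]; exact W.c_relation
  have hc4 : c = W.b₂ ^ 2 - 24 * W.b₄ := by rw [← h4]; rfl
  have hc6 : d = -W.b₂ ^ 3 + 36 * W.b₂ * W.b₄ - 216 * W.b₆ := by rw [← h6]; rfl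
  rw [h4] at hco
  unfold Sp
  split_ifs with h2 h3
  · subst h2
    rcases Int.even_or_odd W.a₁ with ⟨k, hk⟩ | ⟨k, hk⟩
    · -- `a₁ = 2 k`
      have hb2 : W.b₂ = 4 * (k ^ 2 + W.a₂) := by
        rw [WeierstrassCurve.b₂, hk]; ring
      have hb4 : W.b₄ = 2 * (W.a₄ + k * W.a₃) := by
        rw [WeierstrassCurve.b₄, hk]; ring
      have h16 : (16 : ℤ) ∣ c := by
        rw [hc4, hb2, hb4]
        exact ⟨(k ^ 2 + W.a₂) ^ 2 - 3 * (W.a₄ + k * W.a₃), by ring⟩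
      right
      refine ⟨h16, ?_⟩
      have hb6 : W.b₆ = W.a₃ ^ 2 + 4 * W.a₆ := rfl
      rcases Int.even_or_odd W.a₃ with ⟨j, hj⟩ | ⟨j, hj⟩
      · exfalso
        have h32 : (32 : ℤ) ∣ d := by
          rw [hc6, hb2, hb4, hb6, hj]
          exact ⟨-2 * (k ^ 2 + W.a₂) ^ 3 + 9 * (k ^ 2 + W.a₂) * (W.a₄ + k * (j + j)) -
            27 * (j ^ 2 + W.a₆), by ring⟩
        obtain ⟨u, hu⟩ := h16
        obtain ⟨v, hv⟩ := h32
        have h7 : 27 * W.Δ = 16 * (4 * u ^ 3 - v ^ 2) := by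
          rw [hu, hv] at hrel; linarith
        have h8 : (2 : ℤ) ∣ W.Δ := by omega
        exact not_dvd_of_coprime hco Nat.prime_two (by rw [hu]; exact ⟨8 * u, by push_cast; ring⟩)
          (by exact_mod_cast h8)
      · obtain ⟨l, hl⟩ : ∃ l, j * (j + 1) = 2 * l := by
          rcases Int.even_or_odd j with ⟨t, ht⟩ | ⟨t, ht⟩
          · exact ⟨t * (j + 1), by rw [ht]; ring⟩
          · exact ⟨j * (t + 1), by rw [ht]; ring⟩
        have h9 : W.a₃ ^ 2 = 8 * l + 1 := by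
          rw [hj]; linear_combination 4 * hl
        have h10 : d = 32 * (-2 * (k ^ 2 + W.a₂) ^ 3 + 9 * (k ^ 2 + W.a₂) * (W.a₄ + k * W.a₃) -
            54 * l - 27 * W.a₆ - 7) + 8 := by
          rw [hc6, hb2, hb4, hb6, h9]; ring
        omega
    · -- `a₁ = 2 k + 1`
      left
      have hb2 : W.b₂ = 4 * (k ^ 2 + k + W.a₂) + 1 := by
        rw [WeierstrassCurve.b₂, hk]; ring
      obtain ⟨m, hm⟩ : ∃ m, m = k ^ 2 + k + W.a₂ := ⟨_, rfl⟩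
      rw [← hm] at hb2
      refine ⟨?_, ?_, ?_⟩
      · have : c = 2 * (8 * m ^ 2 + 4 * m - 12 * W.b₄) + 1 := by rw [hc4, hb2]; ring
        omega
      · have : d = 4 * (-16 * m ^ 3 - 12 * m ^ 2 - 3 * m + 9 * (4 * m + 1) * W.b₄ - 54 * W.b₆ - 1) + 3 := by
          rw [hc6, hb2]; ring
        omega
      · rw [← hrel]; exact ⟨27 * W.Δ, by ring⟩
  · subst h3
    by_cases hb : (3 : ℤ) ∣ W.b₂
    · right
      obtain ⟨m, hm⟩ := hb
      have h3c : (3 : ℤ) ∣ c := by rw [hc4, hm]; exact ⟨3 * m ^ 2 - 8 * W.b₄, by ring⟩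
      have h27 : (27 : ℤ) ∣ d := by
        rw [hc6, hm]; exact ⟨-m ^ 3 + 4 * m * W.b₄ - 8 * W.b₆, by ring⟩
      refine ⟨h3c, ?_, h27⟩
      rintro ⟨u, hu⟩
      obtain ⟨v, hv⟩ := h27
      have h7 : 64 * W.Δ = 27 * (u ^ 3 - v ^ 2) := by
        rw [hu, hv] at hrel; linarith
      have h8 : (3 : ℤ) ∣ W.Δ := by omega
      exact not_dvd_of_coprime hco Nat.prime_three (by exact_mod_cast h3c) (by exact_mod_cast h8)
    · left
      refine ⟨fun h => hb ?_, ?_⟩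
      · have h7 : (3 : ℤ) ∣ W.b₂ ^ 2 := by
          have : W.b₂ ^ 2 = c + 3 * (8 * W.b₄) := by rw [hc4]; ring
          rw [this]
          exact dvd_add h (Dvd.intro _ rfl)
        exact Int.prime_three.dvd_of_dvd_pow h7
      · rw [← hrel]; exact ⟨64 * W.Δ, by ring⟩
  · rintro ⟨h7, h8⟩
    have h9 : (p : ℤ) ∣ 1728 * W.Δ := by
      rw [hrel]
      exact dvd_sub (dvd_pow h7 (by norm_num)) (dvd_pow h8 (by norm_num))
    have hpi : Prime (p : ℤ) := Nat.prime_iff_prime_int.1 hp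
    rcases hpi.dvd_or_dvd h9 with h10 | h10
    · have h11 : p ∣ 1728 := by exact_mod_cast h10
      have h12 : p ∣ 2 ^ 6 * 3 ^ 3 := by norm_num; exact h11
      rcases (hp.dvd_mul).1 h12 with h13 | h13
      · exact h2 ((Nat.prime_dvd_prime_iff_eq hp Nat.prime_two).1 (hp.dvd_of_dvd_pow h13))
      · exact h3 ((Nat.prime_dvd_prime_iff_eq hp Nat.prime_three).1 (hp.dvd_of_dvd_pow h13))
    · exact not_dvd_of_coprime hco hp h7 h10

theorem z8 : ∀ x y : ZMod 8, x ^ 3 = y ^ 2 → (y = 3 ∨ y = 7) → x = 1 := by decide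

theorem z3 : ∀ x y : ZMod 3, x ^ 3 = y ^ 2 → x ≠ 0 → x = 1 ∧ y ^ 2 = 1 := by decide

theorem c8 {c d : ℤ} (h1 : d % 4 = 3) (h2 : (64 : ℤ) ∣ c ^ 3 - d ^ 2) : (8 : ℤ) ∣ c - 1 := by
  have h3 : ((c : ℤ) : ZMod 8) ^ 3 = ((d : ℤ) : ZMod 8) ^ 2 := by
    have h4 : ((c ^ 3 - d ^ 2 : ℤ) : ZMod 8) = 0 := by
      rw [ZMod.intCast_zmod_eq_zero_iff_dvd]
      exact (show (8 : ℤ) ∣ 64 by norm_num).trans h2
    push_cast at h4
    exact sub_eq_zero.1 h4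
  have h5 : ((d : ℤ) : ZMod 8) = 3 ∨ ((d : ℤ) : ZMod 8) = 7 := by
    have h6 : d % 8 = 3 ∨ d % 8 = 7 := by omega
    rcases h6 with h | h
    · left
      have : ((8 : ℕ) : ℤ) ∣ d - 3 := by push_cast; omega
      rw [← ZMod.intCast_zmod_eq_zero_iff_dvd] at this
      push_cast at this
      exact sub_eq_zero.1 this
    · right
      have : ((8 : ℕ) : ℤ) ∣ d - 7 := by push_cast; omega
      rw [← ZMod.intCast_zmod_eq_zero_iff_dvd] at this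
      push_cast at this
      exact sub_eq_zero.1 this
  have h6 := z8 _ _ h3 h5
  have h7 : ((c - 1 : ℤ) : ZMod 8) = 0 := by push_cast; rw [h6]; ring
  rw [ZMod.intCast_zmod_eq_zero_iff_dvd] at h7
  exact_mod_cast h7

theorem c3 {c d : ℤ} (h1 : ¬ (3 : ℤ) ∣ c) (h2 : (27 : ℤ) ∣ c ^ 3 - d ^ 2) :
    (3 : ℤ) ∣ c - 1 ∧ (3 : ℤ) ∣ d ^ 2 - 1 := by
  have h3 : ((c : ℤ) : ZMod 3) ^ 3 = ((d : ℤ) : ZMod 3) ^ 2 := by
    have h4 : ((c ^ 3 - d ^ 2 : ℤ) : ZMod 3) = 0 := by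
      rw [ZMod.intCast_zmod_eq_zero_iff_dvd]
      exact (show (3 : ℤ) ∣ 27 by norm_num).trans h2
    push_cast at h4
    exact sub_eq_zero.1 h4
  have h5 : ((c : ℤ) : ZMod 3) ≠ 0 := by
    intro h
    rw [ZMod.intCast_zmod_eq_zero_iff_dvd] at h
    exact h1 (by exact_mod_cast h)
  obtain ⟨h6, h7⟩ := z3 _ _ h3 h5
  constructor
  · have h8 : ((c - 1 : ℤ) : ZMod 3) = 0 := by push_cast; rw [h6]; ring
    rw [ZMod.intCast_zmod_eq_zero_iff_dvd] at h8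
    exact_mod_cast h8
  · have h8 : ((d ^ 2 - 1 : ℤ) : ZMod 3) = 0 := by push_cast; rw [h7]; ring
    rw [ZMod.intCast_zmod_eq_zero_iff_dvd] at h8
    exact_mod_cast h8

/-- the parts `2` of the divisibilities -/
theorem part2 {c d : ℤ} (h : K2 c d) : (8 : ℤ) ∣ d ^ 2 - c ∧ (16 : ℤ) ∣ d * (d ^ 2 - 3 * c + 2) := by
  rcases h with ⟨h1, h2, h3⟩ | ⟨h1, h2⟩
  · have h4 := c8 h2 h3
    obtain ⟨u, hu⟩ := h3
    obtain ⟨v, hv⟩ := h4
    have hc : c = 8 * v + 1 := by linarith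
    have hd : d ^ 2 = c ^ 3 - 64 * u := by linarith
    constructor
    · rw [hd, hc]; exact ⟨64 * v ^ 3 + 24 * v ^ 2 + 2 * v - 8 * u, by ring⟩
    · rw [hd, hc]; exact ⟨d * (32 * v ^ 3 + 12 * v ^ 2 - 4 * u), by ring⟩
  · obtain ⟨u, hu⟩ := h1
    obtain ⟨k, hk⟩ : ∃ k, d = 32 * k + 8 := ⟨d / 32, by omega⟩
    constructor
    · rw [hu, hk]; exact ⟨128 * k ^ 2 + 64 * k + 8 - 2 * u, by ring⟩
    · rw [hu, hk]
      exact ⟨(4 * k + 1) * (512 * k ^ 2 + 256 * k + 32 - 24 * u + 1), by ring⟩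

theorem part3 {c d : ℤ} (h : K3 c d) : (3 : ℤ) ∣ d ^ 2 - c ∧ (27 : ℤ) ∣ d * (d ^ 2 - 3 * c + 2) := by
  rcases h with ⟨h1, h2⟩ | ⟨h1, h2, h3⟩
  · obtain ⟨⟨v, hv⟩, ⟨w, hw⟩⟩ := c3 h1 h2
    obtain ⟨u, hu⟩ := h2
    have hc : c = 3 * v + 1 := by linarith
    constructor
    · exact ⟨w - v, by rw [hc]; linarith⟩
    · have hd : d ^ 2 = c ^ 3 - 27 * u := by linarith
      rw [hd, hc]
      exact ⟨d * (v ^ 3 + v ^ 2 - u), by ring⟩
  · obtain ⟨u, hu⟩ := h1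
    obtain ⟨v, hv⟩ := h3
    exact ⟨⟨243 * v ^ 2 - u, by rw [hu, hv]; ring⟩, ⟨v * (d ^ 2 - 3 * c + 2), by rw [hv]; ring⟩⟩

theorem rel1728 {c d : ℤ} (h2 : K2 c d) (h3 : K3 c d) : (1728 : ℤ) ∣ c ^ 3 - d ^ 2 := by
  have a1 : (64 : ℤ) ∣ c ^ 3 - d ^ 2 := by
    rcases h2 with ⟨-, -, h⟩ | ⟨⟨u, hu⟩, h⟩
    · exact h
    · obtain ⟨k, hk⟩ : ∃ k, d = 32 * k + 8 := ⟨d / 32, by omega⟩
      rw [hu, hk]; exact ⟨64 * u ^ 3 - (4 * k + 1) ^ 2, by ring⟩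
  have a2 : (27 : ℤ) ∣ c ^ 3 - d ^ 2 := by
    rcases h3 with ⟨-, h⟩ | ⟨⟨u, hu⟩, -, ⟨v, hv⟩⟩
    · exact h
    · rw [hu, hv]; exact ⟨u ^ 3 - 27 * v ^ 2, by ring⟩
  have : IsCoprime (64 : ℤ) 27 := by
    rw [Int.isCoprime_iff_gcd_eq_one]; norm_num
  have h := this.mul_dvd a1 a2
  norm_num at h
  exact h

/-- the curve -/
theorem exists_curve {c d : ℤ} (h2 : K2 c d) (h3 : K3 c d) :
    ∃ W : WeierstrassCurve ℤ, W.c₄ = c ∧ W.c₆ = d := by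
  obtain ⟨⟨s, hs⟩, ⟨t, ht⟩⟩ := part2 h2
  obtain ⟨⟨s', hs'⟩, ⟨t', ht'⟩⟩ := part3 h3
  obtain ⟨b4, hb4⟩ : ∃ b4, d ^ 2 - c = 24 * b4 := ⟨(d ^ 2 - c) / 24, by omega⟩
  obtain ⟨b6, hb6⟩ : ∃ b6, d * (d ^ 2 - 3 * c + 2) = -432 * b6 :=
    ⟨-(d * (d ^ 2 - 3 * c + 2) / 432), by omega⟩
  have hc : c = d ^ 2 - 24 * b4 := by linarith
  obtain ⟨δ, hδ⟩ := rel1728 h2 h3
  -- a general construction
  have mk : ∀ a1 a2 a3 a4 a6 : ℤ, -d = a1 ^ 2 + 4 * a2 → b4 = 2 * a4 + a1 * a3 → b6 = a3 ^ 2 + 4 * a6 →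
      ∃ W : WeierstrassCurve ℤ, W.c₄ = c ∧ W.c₆ = d := by
    intro a1 a2 a3 a4 a6 e1 e2 e3
    refine ⟨⟨a1, a2, a3, a4, a6⟩, ?_, ?_⟩
    · have f2 : (⟨a1, a2, a3, a4, a6⟩ : WeierstrassCurve ℤ).b₂ = -d := e1.symm
      have f4 : (⟨a1, a2, a3, a4, a6⟩ : WeierstrassCurve ℤ).b₄ = b4 := e2.symm
      rw [WeierstrassCurve.c₄, f2, f4, hc]; ring
    · have f2 : (⟨a1, a2, a3, a4, a6⟩ : WeierstrassCurve ℤ).b₂ = -d := e1.symm
      have f4 : (⟨a1, a2, a3, a4, a6⟩ : WeierstrassCurve ℤ).b₄ = b4 := e2.symm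
      have f6 : (⟨a1, a2, a3, a4, a6⟩ : WeierstrassCurve ℤ).b₆ = b6 := e3.symm
      rw [WeierstrassCurve.c₆, f2, f4, f6]
      have g : d * (d ^ 2 - 3 * (d ^ 2 - 24 * b4) + 2) = -432 * b6 := by rw [← hc]; exact hb6
      have : 2 * (-(-d) ^ 3 + 36 * -d * b4 - 216 * b6) = 2 * d := by linear_combination -g
      linarith
  rcases h2 with ⟨o1, o2, o3⟩ | ⟨o1, o2⟩
  · -- odd
    obtain ⟨m, hm⟩ : ∃ m, -d = 1 ^ 2 + 4 * m := ⟨(-d - 1) / 4, by omega⟩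
    have h4 : (4 : ℤ) ∣ b4 ^ 2 + d * b6 := by
      -- `c³ - d² = 1728 δ`
      have g : d * (d ^ 2 - 3 * (d ^ 2 - 24 * b4) + 2) = -432 * b6 := by rw [← hc]; exact hb6
      have e6 : d = d ^ 3 - 36 * d * b4 - 216 * b6 := by linarith
      have e : 432 * (d ^ 2 * (b4 ^ 2 + d * b6)) + 1728 * (-8 * b4 ^ 3 - 27 * b6 ^ 2 - 9 * d * b4 * b6) =
          1728 * δ := by
        have e7 : (d ^ 2 - 24 * b4) ^ 3 - (d ^ 3 - 36 * d * b4 - 216 * b6) ^ 2 = 1728 * δ := by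
          rw [← e6, ← hc]; exact hδ
        linear_combination e7
      have e8 : d ^ 2 * (b4 ^ 2 + d * b6) = 4 * (δ + 8 * b4 ^ 3 + 27 * b6 ^ 2 + 9 * d * b4 * b6) := by
        linarith
      have hco : IsCoprime (4 : ℤ) (d ^ 2) := by
        apply IsCoprime.pow_right
        have : IsCoprime (2 : ℤ) d := by
          rw [Int.isCoprime_iff_gcd_eq_one]
          have h5 : ¬ (2 : ℤ) ∣ d := by omega
          exact (Int.prime_two.coprime_iff_not_dvd.2 h5) |> Int.isCoprime_iff_gcd_eq_one.1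
        have h5 := IsCoprime.pow_left (m := 2) this
        norm_num at h5
        exact h5
      exact hco.dvd_of_dvd_mul_left ⟨_, e8⟩
    obtain ⟨w, hw⟩ := h4
    rcases Int.even_or_odd b4 with ⟨k, hk⟩ | ⟨k, hk⟩
    · have h5 : ∃ l, b6 = 0 ^ 2 + 4 * l := by
        refine ⟨k ^ 2 - m * b6 - w, ?_⟩
        have hd : d = -1 - 4 * m := by linarith
        rw [hk, hd] at hw
        linear_combination -hw
      obtain ⟨l, hl⟩ := h5
      exact mk 1 m 0 k l hm (by rw [hk]; ring) hl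
    · have h5 : ∃ l, b6 = 1 ^ 2 + 4 * l := by
        refine ⟨k ^ 2 + k - m * b6 - w, ?_⟩
        have hd : d = -1 - 4 * m := by linarith
        rw [hk, hd] at hw
        linear_combination -hw
      obtain ⟨l, hl⟩ := h5
      exact mk 1 m 1 k l hm (by rw [hk]; ring) hl
  · -- even
    obtain ⟨u, hu⟩ := o1
    obtain ⟨k, hk⟩ : ∃ k, d = 32 * k + 8 := ⟨d / 32, by omega⟩
    obtain ⟨n, hn⟩ : ∃ n, b4 = 2 * n := by
      have : d ^ 2 = 64 * (4 * k + 1) ^ 2 := by rw [hk]; ring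
      exact ⟨b4 / 2, by omega⟩
    have h6 : ∃ l, b6 = 1 ^ 2 + 4 * l := by
      rw [hk, hu] at hb6
      have : 27 * b6 = -(4 * k + 1) * (32 * (4 * k + 1) ^ 2 - 24 * u + 1) := by linarith
      obtain ⟨x, hx⟩ : ∃ x, 27 * b6 = 4 * x - 1 := ⟨-k * (32 * (4 * k + 1) ^ 2 - 24 * u + 1) -
        (8 * (4 * k + 1) ^ 2 - 6 * u), by rw [this]; ring⟩
      exact ⟨(b6 - 1) / 4, by omega⟩
    obtain ⟨l, hl⟩ := h6
    exact mk 0 (-(8 * k + 2)) 1 n l (by rw [hk]; ring) (by rw [hn]; ring) hl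

/-- **the invariants of the semistable curves** -/
theorem sm_iff (c d : ℤ) : Sm c d ↔ c ^ 3 ≠ d ^ 2 ∧ ∀ p : ℕ, p.Prime → Sp p c d := by
  constructor
  · intro h
    refine ⟨?_, fun p hp => sm_sp h hp⟩
    obtain ⟨W, hΔ, hco, h4, h6⟩ := h
    have hrel : 1728 * W.Δ = c ^ 3 - d ^ 2 := by rw [← h4, ← h6]; exact W.c_relation
    intro h
    apply hΔ
    have : 1728 * W.Δ = 0 := by rw [hrel, h]; ring
    omega
  · rintro ⟨hne, h⟩
    have h2 : K2 c d := by have := h 2 Nat.prime_two; unfold Sp at this; simpa using this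
    have h3 : K3 c d := by have := h 3 Nat.prime_three; unfold Sp at this; simpa using this
    obtain ⟨W, h4, h6⟩ := exists_curve h2 h3
    have hrel : 1728 * W.Δ = c ^ 3 - d ^ 2 := by rw [← h4, ← h6]; exact W.c_relation
    refine ⟨W, ?_, ?_, h4, h6⟩
    · intro h0
      rw [h0] at hrel
      apply hne
      linarith
    · rw [h4, Int.isCoprime_iff_gcd_eq_one]
      apply Nat.coprime_of_dvd
      intro p hp hp1 hp2
      have hp1' : (p : ℤ) ∣ c := Int.natCast_dvd.2 hp1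
      have hp2' : (p : ℤ) ∣ W.Δ := Int.natCast_dvd.2 hp2
      by_cases e2 : p = 2
      · subst e2
        push_cast at hp1' hp2'
        rcases h2 with ⟨o1, -, -⟩ | ⟨⟨u, hu⟩, o2⟩
        · exact o1 hp1'
        · obtain ⟨k, hk⟩ : ∃ k, d = 32 * k + 8 := ⟨d / 32, by omega⟩
          obtain ⟨v, hv⟩ := hp2'
          rw [hu, hk, hv] at hrel
          have : 2 * (27 * v) = 2 * (32 * u ^ 3 - 8 * k ^ 2 - 4 * k) - 1 := by linarith
          omega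
      · by_cases e3 : p = 3
        · subst e3
          push_cast at hp1' hp2'
          rcases h3 with ⟨o1, -⟩ | ⟨⟨u, hu⟩, o2, ⟨v, hv⟩⟩
          · exact o1 hp1'
          · obtain ⟨w, hw⟩ := hp2'
            rw [hu, hv, hw] at hrel
            have h7 : u ^ 3 = 3 * (64 * w + 9 * v ^ 2) := by linarith
            have h8 : (3 : ℤ) ∣ u := Int.prime_three.dvd_of_dvd_pow ⟨_, h7⟩
            obtain ⟨x, hx⟩ := h8
            apply o2
            exact ⟨x, by rw [hu, hx]; ring⟩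
        · have h7 := h p hp
          unfold Sp at h7
          rw [if_neg e2, if_neg e3] at h7
          apply h7
          refine ⟨hp1', ?_⟩
          have hpi : Prime (p : ℤ) := Nat.prime_iff_prime_int.1 hp
          have h8 : (p : ℤ) ∣ d ^ 2 := by
            have : d ^ 2 = c ^ 3 - 1728 * W.Δ := by linarith
            rw [this]
            exact dvd_sub (dvd_pow hp1' (by norm_num)) (Dvd.dvd.mul_left hp2' _)
          exact hpi.dvd_of_dvd_pow h8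

end Pool.Agent.U73.LS
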