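import Pool.Agent.U73.LR.Per
import Pool.Agent.U73.LS.Kr

set_option autoImplicit false

/-!
# Packages for the law of `|Δ| / N` over the semistable curves (helper73)
-/

namespace Pool.Agent.U73.LS

open Finset Filter Topology
open Pool.Agent.U73.LR

/-- `c³ = d²`, or a prime `≥ z` divides both -/
def S_SMALL : Prop := ∀ z : ℕ, 5 ≤ z → ∀ᶠ X : ℝ in atTop,
  cnt X (fun a b => a ^ 3 = b ^ 2 ∨ ∃ p : ℕ, p.Prime ∧ z ≤ p ∧ (p : ℤ) ∣ a ∧ (p : ℤ) ∣ b) ≤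
    24 / z * X ^ 5

/-- the square of a prime `≥ z` divides `c³ - d²` -/
def S_BIG : Prop := ∃ C : ℝ, 0 < C ∧ ∀ z : ℕ, 5 ≤ z → ∀ᶠ X : ℝ in atTop,
  cnt X (fun a b => a ^ 3 ≠ b ^ 2 ∧ ∃ p : ℕ, p.Prime ∧ z ≤ p ∧ ¬ (p : ℤ) ∣ a ∧
    (p : ℤ) ^ 2 ∣ a ^ 3 - b ^ 2) ≤ C / z * X ^ 5

/-- the parametrization `(t², t³)` -/
def S_CORE : Prop := ∀ p : ℕ, p.Prime → ∀ k : ℕ, 1 ≤ k →
  rc (p ^ k) (fun a b => ¬ (p : ℤ) ∣ a ∧ (p : ℤ) ^ k ∣ a ^ 3 - b ^ 2) = (1 - 1 / (p : ℝ)) / (p : ℝ) ^ k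

end Pool.Agent.U73.LS
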