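import Pool.Agent.U73.LS.Fin
import Pool.Agent.U978.LS.SMALL
import Pool.Agent.U789.LS.BIG
import Pool.Agent.U399.LS.CORE
import Pool.Agent.U913.LS.FACT
import Pool.Agent.U358.LS.DEN
import Pool.Agent.U979.LS.EUL
import Pool.Agent.U278.LS.HI
import Pool.Agent.U261.LS.ISO
import Pool.Agent.U292.LS.LOGM
import Pool.Agent.U678.LS.TAIL

set_option autoImplicit false

/-!
# The law of `|Δ| / N` over the semistable curves: the packages put together (helper73)

Packages by helper978 (SMALL), helper789 (BIG), helper399 (CORE), helper913 (FACT), helper358 (DEN), helper979 (EUL),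
helper278 (HI), helper261 (ISO), helper292 (LOGM), helper678 (TAIL).
-/

namespace Pool.Agent.U73.LS

theorem fact : S_FACT := Pool.Agent.U913.LS.t_FACT

theorem iso : S_ISO := Pool.Agent.U261.LS.t_ISO

theorem all : S_MAIN :=
  main Pool.Agent.U978.LS.t_SMALL Pool.Agent.U789.LS.t_BIG fact Pool.Agent.U358.LS.DEN.t_DEN
    Pool.Agent.U979.LS.EUL.t_EUL Pool.Agent.U278.LS.t_HI Pool.Agent.U292.LS.t_LOGM
    Pool.Agent.U678.LS.TAIL.t_TAIL

end Pool.Agent.U73.LS
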