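import Pool.Agent.U73.LR.Asm

set_option autoImplicit false

/-!
# The law of a positive integer attached to pairs of integers, from local densities (helper73)
-/

namespace Pool.Agent.U73.LS

open Finset Filter Topology
open Pool.Agent.U73.LR

/-- a family of pairs of integers given by local conditions with a positive integer `r` -/
structure Fam where
  M : ℤ → ℤ → Prop
  r : ℤ → ℤ → ℕ
  Z : ℤ → ℤ → Prop
  G : ℕ → ℕ → ℤ → ℤ → Prop
  f : ℕ → ℕ → ℕ
  s : ℕ → ℝ
  γ : ℕ → ℕ → ℝ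
  C : ℝ
  anti : ∀ p g a b, G p (g + 1) a b → G p g a b
  per : ∀ p g, Per (p ^ f p g) (G p g)
  M_iff : ∀ a b, M a b ↔ ¬ Z a b ∧ ∀ p : ℕ, p.Prime → G p 0 a b
  r_pos : ∀ a b, M a b → 0 < r a b
  fact : ∀ a b, M a b → ∀ p : ℕ, p.Prime → ∀ g, (p ^ g ∣ r a b ↔ G p g a b)
  s_pos : ∀ p : ℕ, p.Prime → 0 < s p
  γ0 : ∀ p : ℕ, p.Prime → γ p 0 = 1
  γlim : ∀ p : ℕ, p.Prime → Tendsto (γ p) atTop (𝓝 0)
  rcG : ∀ p : ℕ, p.Prime → ∀ g, rc (p ^ f p g) (G p g) = s p * γ p g
  small : ∀ z : ℕ, 5 ≤ z → ∀ᶠ X : ℝ in atTop,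
    cnt X (fun a b => Z a b ∨ ∃ p : ℕ, p.Prime ∧ z ≤ p ∧ ¬ G p 0 a b) ≤ C / z * X ^ 5
  big : ∀ z : ℕ, 5 ≤ z → ∀ᶠ X : ℝ in atTop,
    cnt X (fun a b => M a b ∧ ∃ p : ℕ, p.Prime ∧ z ≤ p ∧ p ∣ r a b) ≤ C / z * X ^ 5

theorem cnt_false (X : ℝ) {P : ℤ → ℤ → Prop} (h : ∀ a b, ¬ P a b) : cnt X P = 0 := by
  classical
  rw [cnt_def X P, Finset.filter_false_of_mem]
  · simp
  · intro q _
    exact h _ _

/-- complement -/
theorem rc_diff {m : ℕ} {P Q R : ℤ → ℤ → Prop} (h : ∀ a b, P a b ↔ Q a b ∨ R a b)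
    (hd : ∀ a b, ¬ (Q a b ∧ R a b)) : rc m P = rc m Q + rc m R := by
  classical
  unfold rc
  rw [← add_div]
  congr 1
  rw [← Nat.cast_add, ← Finset.card_union_of_disjoint]
  · congr 2
    ext q
    simp only [Finset.mem_filter, Finset.mem_union, h]
    tauto
  · rw [Finset.disjoint_filter]
    intro q _ h1 h2
    exact hd _ _ ⟨h1, h2⟩

namespace Fam

variable (F : Fam)

/-- exactly `g` -/
def L (p g : ℕ) (a b : ℤ) : Prop := F.G p g a b ∧ ¬ F.G p (g + 1) a b

theorem anti' {p g : ℕ} {a b : ℤ} (h : F.G p g a b) : F.G p 0 a b := by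
  induction g with
  | zero => exact h
  | succ g ih => exact ih (F.anti p g a b h)

theorem L_per (p g : ℕ) : Per (p ^ (F.f p g + F.f p (g + 1))) (F.L p g) := by
  have h1 : Per (p ^ (F.f p g + F.f p (g + 1))) (F.G p g) :=
    (F.per p g).of_dvd (pow_dvd_pow _ (Nat.le_add_right _ _))
  have h2 : Per (p ^ (F.f p g + F.f p (g + 1))) (F.G p (g + 1)) :=
    (F.per p (g + 1)).of_dvd (pow_dvd_pow _ (Nat.le_add_left _ _))
  intro a b a' b' ha hb
  unfold L
  rw [h1 a b a' b' ha hb, h2 a b a' b' ha hb]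

theorem L_rc {p : ℕ} (hp : p.Prime) (g : ℕ) :
    rc (p ^ (F.f p g + F.f p (g + 1))) (F.L p g) = F.s p * (F.γ p g - F.γ p (g + 1)) := by
  have hpos : ∀ k, 0 < p ^ k := fun k => pow_pos hp.pos k
  have h1 : Per (p ^ (F.f p g + F.f p (g + 1))) (F.G p g) :=
    (F.per p g).of_dvd (pow_dvd_pow _ (Nat.le_add_right _ _))
  have h2 : Per (p ^ (F.f p g + F.f p (g + 1))) (F.G p (g + 1)) :=
    (F.per p (g + 1)).of_dvd (pow_dvd_pow _ (Nat.le_add_left _ _))
  have e1 := rc_eq (hpos _) (hpos _) h1 (F.per p g)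
  have e2 := rc_eq (hpos _) (hpos _) h2 (F.per p (g + 1))
  rw [F.rcG p hp] at e1 e2
  have e3 : rc (p ^ (F.f p g + F.f p (g + 1))) (F.G p g) =
      rc (p ^ (F.f p g + F.f p (g + 1))) (F.L p g) +
        rc (p ^ (F.f p g + F.f p (g + 1))) (F.G p (g + 1)) := by
    apply rc_diff
    · intro a b
      unfold L
      constructor
      · intro h
        by_cases h' : F.G p (g + 1) a b
        · right; exact h'
        · left; exact ⟨h, h'⟩
      · rintro (⟨h, _⟩ | h)
        · exact h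
        · exact F.anti p g a b h
    · rintro a b ⟨⟨_, h1⟩, h2⟩
      exact h1 h2
  rw [e1, e2] at e3
  linarith

theorem L_iff {a b : ℤ} (h : F.M a b) {p : ℕ} (hp : p.Prime) (g : ℕ) :
    (F.r a b).factorization p = g ↔ F.L p g a b := by
  have h0 := (F.r_pos a b h).ne'
  unfold L
  rw [← F.fact a b h p hp, ← F.fact a b h p hp, hp.pow_dvd_iff_le_factorization h0,
    hp.pow_dvd_iff_le_factorization h0]
  omega

/-- the products of the densities -/
noncomputable def W (z : ℕ) : ℝ := ∏ p ∈ Nat.primesBelow z, F.s p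

/-- local conditions at finitely many primes -/
theorem dens_fin (S : Finset ℕ) (hS : ∀ p ∈ S, p.Prime) (L : ℕ → ℤ → ℤ → Prop) (k : ℕ → ℕ)
    (hper : ∀ p ∈ S, Per (p ^ k p) (L p)) (hL0 : ∀ p ∈ S, ∀ a b, L p a b → F.G p 0 a b) :
    ∃ D : ℝ, Tendsto (fun X : ℝ => cnt X (fun a b => F.M a b ∧ ∀ p ∈ S, L p a b) /
      X ^ 5) atTop (𝓝 D) ∧ Tendsto (fun z => 4 * F.W z * ∏ p ∈ S, (rc (p ^ k p) (L p) / F.s p)) atTop
        (𝓝 D) := by
  classical
  obtain ⟨L', hL⟩ : ∃ L' : ℕ → ℤ → ℤ → Prop, L' = fun p => if p ∈ S then L p else F.G p 0 := ⟨_, rfl⟩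
  obtain ⟨k', hk⟩ : ∃ k' : ℕ → ℕ, k' = fun p => if p ∈ S then k p else F.f p 0 := ⟨_, rfl⟩
  have hper' : ∀ p, Per (p ^ k' p) (L' p) := by
    intro p
    rw [hL, hk]
    by_cases hp : p ∈ S
    · simp only [if_pos hp]; exact hper p hp
    · simp only [if_neg hp]; exact F.per p 0
  obtain ⟨T, hT⟩ : ∃ T : ℕ → Finset ℕ, T = fun z => S ∪ Nat.primesBelow z := ⟨_, rfl⟩
  have hTp : ∀ z, ∀ p ∈ T z, p.Prime := by
    intro z p hp
    rw [hT] at hp
    simp only [Finset.mem_union] at hp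
    rcases hp with h | h
    · exact hS p h
    · exact Nat.prime_of_mem_primesBelow h
  obtain ⟨Q, hQ⟩ : ∃ Q : ℕ → ℤ → ℤ → Prop, Q = fun z a b => ∀ p ∈ T z, L' p a b := ⟨_, rfl⟩
  have hdens : ∀ z, Tendsto (fun X : ℝ => cnt X (Q z) / X ^ 5) atTop
      (𝓝 (4 * ∏ p ∈ T z, rc (p ^ k' p) (L' p))) := by
    intro z
    obtain ⟨h1, h2, h3⟩ := rc_prod (T z) (hTp z) k' L' (fun p _ => hper' p)
    have := dens_per h1 h2
    rw [h3] at this
    rw [hQ]
    exact this
  have hη : Tendsto (fun z : ℕ => F.C / z) atTop (𝓝 0) := tendsto_const_div_atTop_nhds_zero_nat _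
  obtain ⟨D, hD1, hD2⟩ := approx
    (fun a b => F.M a b ∧ ∀ p ∈ S, L p a b) Q _ _ hdens hη (by
    filter_upwards [eventually_ge_atTop 5] with z hz
    filter_upwards [F.small z hz] with X hX
    have h1 : cnt X (fun a b => F.M a b ∧ ∀ p ∈ S, L p a b) ≤ cnt X (Q z) := by
      apply cnt_mono
      rintro a b ⟨h1, h2⟩
      rw [hQ]
      intro p hp
      have hpp := hTp z p hp
      rw [hL]
      by_cases hpS : p ∈ S
      · simp only [if_pos hpS]
        exact h2 p hpS
      · simp only [if_neg hpS]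
        exact ((F.M_iff a b).1 h1).2 p hpp
    have h2 : cnt X (Q z) ≤ cnt X (fun a b => F.M a b ∧ ∀ p ∈ S, L p a b) +
        cnt X (fun a b => F.Z a b ∨ ∃ p : ℕ, p.Prime ∧ z ≤ p ∧ ¬ F.G p 0 a b) := by
      refine le_trans ?_ (cnt_or X _ _)
      apply cnt_mono
      intro a b hq
      rw [hQ] at hq
      by_cases h0 : F.Z a b ∨ ∃ p : ℕ, p.Prime ∧ z ≤ p ∧ ¬ F.G p 0 a b
      · right; exact h0
      · left
        push Not at h0
        obtain ⟨h0, h3⟩ := h0
        have hLN : ∀ p ∈ T z, F.G p 0 a b := by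
          intro p hp
          have := hq p hp
          rw [hL] at this
          by_cases hpS : p ∈ S
          · simp only [if_pos hpS] at this
            exact hL0 p hpS a b this
          · simp only [if_neg hpS] at this
            exact this
        have hMn : F.M a b := by
          refine (F.M_iff a b).2 ⟨h0, fun p hp => ?_⟩
          by_cases hpz : z ≤ p
          · exact h3 p hp hpz
          · apply hLN
            rw [hT]
            simp only [Finset.mem_union]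
            right
            exact Nat.mem_primesBelow.2 ⟨by omega, hp⟩
        refine ⟨hMn, fun p hp => ?_⟩
        have := hq p (by rw [hT]; simp only [Finset.mem_union]; left; exact hp)
        rw [hL] at this
        simp only [if_pos hp] at this
        exact this
    rw [abs_sub_comm, abs_of_nonneg (by linarith)]
    linarith)
  refine ⟨D, hD1, hD2.congr' ?_⟩
  obtain ⟨B, hB⟩ : ∃ B : ℕ, ∀ p ∈ S, p < B :=
    ⟨S.sup id + 1, fun p hp => Nat.lt_succ_of_le (Finset.le_sup (f := id) hp)⟩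
  filter_upwards [eventually_ge_atTop B] with z hz
  have hTz : T z = Nat.primesBelow z := by
    rw [hT]
    simp only
    rw [Finset.union_eq_right]
    intro p hp
    exact Nat.mem_primesBelow.2 ⟨(hB p hp).trans_le hz, hS p hp⟩
  have hSub : S ⊆ Nat.primesBelow z := by
    intro p hp
    exact Nat.mem_primesBelow.2 ⟨(hB p hp).trans_le hz, hS p hp⟩
  rw [hTz]
  have e1 : ∏ p ∈ Nat.primesBelow z, rc (p ^ k' p) (L' p) =
      (∏ p ∈ Nat.primesBelow z, F.s p) *
        ∏ p ∈ Nat.primesBelow z, (if p ∈ S then rc (p ^ k p) (L p) / F.s p else 1) := by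
    rw [← Finset.prod_mul_distrib]
    refine Finset.prod_congr rfl fun p hp => ?_
    have hpp := Nat.prime_of_mem_primesBelow hp
    rw [hL, hk]
    by_cases hpS : p ∈ S
    · simp only [if_pos hpS]
      rw [mul_div_assoc', mul_div_cancel_left₀ _ (F.s_pos p hpp).ne']
    · simp only [if_neg hpS, mul_one]
      rw [F.rcG p hpp, F.γ0 p hpp, mul_one]
  have e2 : ∏ p ∈ Nat.primesBelow z, (if p ∈ S then rc (p ^ k p) (L p) / F.s p else 1) =
      ∏ p ∈ S, (rc (p ^ k p) (L p) / F.s p) := by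
    rw [← Finset.prod_filter]
    congr 1
    ext p
    rw [Finset.mem_filter]
    exact ⟨fun h => h.2, fun h => ⟨hSub h, h⟩⟩
  rw [e1, e2]
  unfold W
  ring

/-- the density of the pairs with `r = m` -/
theorem dens_pt (m : ℕ) (hm : 1 ≤ m) :
    ∃ D : ℝ, Tendsto (fun X : ℝ => cnt X (fun a b => F.M a b ∧ F.r a b = m) / X ^ 5) atTop (𝓝 D) ∧
      Tendsto (fun z => 4 * F.W z * ∏ p ∈ Nat.primesBelow z,
        (F.γ p (m.factorization p) - F.γ p (m.factorization p + 1))) atTop (𝓝 D) := by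
  classical
  obtain ⟨Q, hQ⟩ : ∃ Q : ℕ → ℤ → ℤ → Prop, Q = fun z a b => ∀ p ∈ Nat.primesBelow z,
    F.L p (m.factorization p) a b := ⟨_, rfl⟩
  obtain ⟨k, hk⟩ : ∃ k : ℕ → ℕ, k = fun p => F.f p (m.factorization p) + F.f p (m.factorization p + 1) :=
    ⟨_, rfl⟩
  have hdens : ∀ z, Tendsto (fun X : ℝ => cnt X (Q z) / X ^ 5) atTop
      (𝓝 (4 * ∏ p ∈ Nat.primesBelow z, rc (p ^ k p) (F.L p (m.factorization p)))) := by
    intro z
    obtain ⟨h1, h2, h3⟩ := rc_prod (Nat.primesBelow z) (fun p hp => Nat.prime_of_mem_primesBelow hp)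
      k (fun p => F.L p (m.factorization p)) (fun p _ => by rw [hk]; exact F.L_per p _)
    have := dens_per h1 h2
    rw [h3] at this
    rw [hQ]
    exact this
  have hη : Tendsto (fun z : ℕ => (F.C + F.C : ℝ) / z) atTop (𝓝 0) :=
    tendsto_const_div_atTop_nhds_zero_nat _
  obtain ⟨D, hD1, hD2⟩ := approx (fun a b => F.M a b ∧ F.r a b = m) Q _ _ hdens hη (by
    filter_upwards [eventually_ge_atTop (m + 5)] with z hz
    filter_upwards [F.small z (by omega), F.big z (by omega)] with X hX hX'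
    have h1 : cnt X (fun a b => F.M a b ∧ F.r a b = m) ≤ cnt X (Q z) := by
      apply cnt_mono
      rintro a b ⟨h1, h2⟩
      rw [hQ]
      intro p hp
      have hpp := Nat.prime_of_mem_primesBelow hp
      exact (F.L_iff h1 hpp _).1 (by rw [h2])
    have h2 : cnt X (Q z) ≤ cnt X (fun a b => F.M a b ∧ F.r a b = m) +
        (cnt X (fun a b => F.Z a b ∨ ∃ p : ℕ, p.Prime ∧ z ≤ p ∧ ¬ F.G p 0 a b) +
            cnt X (fun a b => F.M a b ∧ ∃ p : ℕ, p.Prime ∧ z ≤ p ∧ p ∣ F.r a b)) := by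
      refine le_trans ?_ ((cnt_or X _ _).trans (add_le_add_right (cnt_or X _ _) _))
      apply cnt_mono
      intro a b hq
      rw [hQ] at hq
      by_cases h0 : F.Z a b ∨ ∃ p : ℕ, p.Prime ∧ z ≤ p ∧ ¬ F.G p 0 a b
      · right; left; exact h0
      · push Not at h0
        obtain ⟨h0, h3⟩ := h0
        have hMn : F.M a b := by
          refine (F.M_iff a b).2 ⟨h0, fun p hp => ?_⟩
          by_cases hpz : z ≤ p
          · exact h3 p hp hpz
          · exact F.anti' (hq p (Nat.mem_primesBelow.2 ⟨by omega, hp⟩)).1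
        by_cases h4 : ∃ p : ℕ, p.Prime ∧ z ≤ p ∧ p ∣ F.r a b
        · right; right; exact ⟨hMn, h4⟩
        · left
          push Not at h4
          refine ⟨hMn, ?_⟩
          apply Nat.eq_of_factorization_eq (F.r_pos a b hMn).ne' (by omega)
          intro p
          by_cases hp : p.Prime
          · by_cases hpz : z ≤ p
            · rw [Nat.factorization_eq_zero_of_not_dvd (h4 p hp hpz),
                Nat.factorization_eq_zero_of_not_dvd]
              intro h
              have := Nat.le_of_dvd (by omega) h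
              omega
            · exact (F.L_iff hMn hp _).2 (hq p (Nat.mem_primesBelow.2 ⟨by omega, hp⟩))
          · rw [Nat.factorization_eq_zero_of_not_prime _ hp,
              Nat.factorization_eq_zero_of_not_prime _ hp]
    rw [abs_sub_comm, abs_of_nonneg (by linarith)]
    have e : (F.C + F.C : ℝ) / z * X ^ 5 = F.C / z * X ^ 5 + F.C / z * X ^ 5 := by
      ring
    rw [e]
    linarith)
  refine ⟨D, hD1, hD2.congr' (Eventually.of_forall fun z => ?_)⟩
  have e1 : ∏ p ∈ Nat.primesBelow z, rc (p ^ k p) (F.L p (m.factorization p)) =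
      (∏ p ∈ Nat.primesBelow z, F.s p) *
        ∏ p ∈ Nat.primesBelow z, (F.γ p (m.factorization p) - F.γ p (m.factorization p + 1)) := by
    rw [← Finset.prod_mul_distrib]
    refine Finset.prod_congr rfl fun p hp => ?_
    have hpp := Nat.prime_of_mem_primesBelow hp
    rw [hk]
    exact F.L_rc hpp _
  rw [e1]
  unfold W
  ring

/-- a high power of `p` is rare -/
theorem deep {p : ℕ} (hp : p.Prime) (ε : ℝ) (hε : 0 < ε) : ∃ j : ℕ, ∀ᶠ X : ℝ in atTop,
    cnt X (fun a b => F.M a b ∧ p ^ j ∣ F.r a b) ≤ ε * X ^ 5 := by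
  have h1 : Tendsto (fun j => 4 * (F.s p * F.γ p j)) atTop (𝓝 (4 * (F.s p * 0))) :=
    ((F.γlim p hp).const_mul _).const_mul _
  rw [mul_zero, mul_zero] at h1
  obtain ⟨j, hj⟩ := (h1.eventually_lt_const hε).exists
  refine ⟨j, ?_⟩
  have h2 := dens_per (pow_pos hp.pos _) (F.per p j)
  rw [F.rcG p hp] at h2
  filter_upwards [h2.eventually_lt_const hj, eventually_gt_atTop (0 : ℝ)] with X h3 hX
  have hX5 : 0 < X ^ 5 := by positivity
  rw [div_lt_iff₀ hX5] at h3
  refine le_trans ?_ h3.le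
  apply cnt_mono
  rintro a b ⟨h4, h5⟩
  exact (F.fact a b h4 p hp j).1 h5

/-- tightness -/
theorem tight (ε : ℝ) (hε : 0 < ε) : ∃ K : ℕ, ∀ N : ℕ, K ≤ N → ∀ᶠ X : ℝ in atTop,
    cnt X (fun a b => F.M a b ∧ N ≤ F.r a b) ≤ ε * X ^ 5 := by
  classical
  have h1 : Tendsto (fun z : ℕ => F.C / z) atTop (𝓝 0) := tendsto_const_div_atTop_nhds_zero_nat _
  obtain ⟨z, hz1, hz2⟩ := ((h1.eventually_lt_const (by linarith : (0 : ℝ) < ε / 2)).and
    (eventually_ge_atTop 5)).exists
  have hzR : (0 : ℝ) < z := by exact_mod_cast (by omega : 0 < z)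
  have h2 : ∀ p : ℕ, ∃ j : ℕ, p.Prime → ∀ᶠ X : ℝ in atTop,
      cnt X (fun a b => F.M a b ∧ p ^ j ∣ F.r a b) ≤ ε / (2 * z) * X ^ 5 := by
    intro p
    by_cases hp : p.Prime
    · obtain ⟨j, hj⟩ := F.deep hp (ε / (2 * z)) (by positivity)
      exact ⟨j, fun _ => hj⟩
    · exact ⟨0, fun h => absurd h hp⟩
  choose j hj using h2
  obtain ⟨K, hK⟩ : ∃ K : ℕ, K = ∏ p ∈ Nat.primesBelow z, p ^ j p := ⟨_, rfl⟩
  have hKpos : 0 < K := by
    rw [hK]
    exact Finset.prod_pos fun p hp => pow_pos (Nat.prime_of_mem_primesBelow hp).pos _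
  refine ⟨K + 1, fun N hN => ?_⟩
  have h3 : ∀ᶠ X : ℝ in atTop, ∀ p ∈ Nat.primesBelow z,
      cnt X (fun a b => F.M a b ∧ p ^ j p ∣ F.r a b) ≤ ε / (2 * z) * X ^ 5 := by
    rw [Filter.eventually_all_finset]
    intro p hp
    exact hj p (Nat.prime_of_mem_primesBelow hp)
  filter_upwards [h3, F.big z hz2, eventually_gt_atTop (0 : ℝ)] with X h4 h5 hX
  have hX5 : 0 < X ^ 5 := by positivity
  -- a union bound
  have hub : ∀ T : Finset ℕ, cnt X (fun a b => ∃ p ∈ T, F.M a b ∧ p ^ j p ∣ F.r a b) ≤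
      ∑ p ∈ T, cnt X (fun a b => F.M a b ∧ p ^ j p ∣ F.r a b) := by
    intro T
    induction T using Finset.induction_on with
    | empty =>
      rw [Finset.sum_empty, cnt_false X]
      rintro a b ⟨p, hp, _⟩
      simp at hp
    | insert p T hpT ih =>
      rw [Finset.sum_insert hpT]
      refine le_trans ?_ (add_le_add_right ih _)
      refine le_trans ?_ (cnt_or X _ _)
      apply cnt_mono
      rintro a b ⟨q, hq, h⟩
      rw [Finset.mem_insert] at hq
      rcases hq with rfl | hq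
      · left; exact h
      · right; exact ⟨q, hq, h⟩
  have h6 : cnt X (fun a b => F.M a b ∧ N ≤ F.r a b) ≤
      cnt X (fun a b => ∃ p ∈ Nat.primesBelow z, F.M a b ∧ p ^ j p ∣ F.r a b) +
        cnt X (fun a b => F.M a b ∧ ∃ p : ℕ, p.Prime ∧ z ≤ p ∧ p ∣ F.r a b) := by
    refine le_trans ?_ (cnt_or X _ _)
    apply cnt_mono
    rintro a b ⟨h7, h8⟩
    by_cases h9 : ∃ p : ℕ, p.Prime ∧ z ≤ p ∧ p ∣ F.r a b
    · right; exact ⟨h7, h9⟩
    · left
      push Not at h9
      by_contra hcon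
      push Not at hcon
      have hr := F.r_pos a b h7
      have hdvd : F.r a b ∣ K := by
        rw [← Nat.factorization_le_iff_dvd hr.ne' hKpos.ne']
        intro p
        by_cases hp : p.Prime
        · by_cases hpz : z ≤ p
          · rw [Nat.factorization_eq_zero_of_not_dvd (h9 p hp hpz)]
            exact Nat.zero_le _
          · have hpm : p ∈ Nat.primesBelow z := Nat.mem_primesBelow.2 ⟨by omega, hp⟩
            have h10 := hcon p hpm h7
            rw [hp.pow_dvd_iff_le_factorization hr.ne'] at h10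
            have h11 : j p ≤ K.factorization p := by
              rw [← hp.pow_dvd_iff_le_factorization hKpos.ne', hK]
              exact Finset.dvd_prod_of_mem _ hpm
            omega
        · rw [Nat.factorization_eq_zero_of_not_prime _ hp]
          exact Nat.zero_le _
      have := Nat.le_of_dvd hKpos hdvd
      omega
  have h7 : ∑ p ∈ Nat.primesBelow z, cnt X (fun a b => F.M a b ∧ p ^ j p ∣ F.r a b) ≤
      ε / 2 * X ^ 5 := by
    refine (Finset.sum_le_sum h4).trans ?_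
    rw [Finset.sum_const, nsmul_eq_mul]
    have h8 : ((Nat.primesBelow z).card : ℝ) ≤ z := by
      have : (Nat.primesBelow z).card ≤ z := by
        unfold Nat.primesBelow
        exact (Finset.card_filter_le _ _).trans (by rw [Finset.card_range])
      exact_mod_cast this
    calc ((Nat.primesBelow z).card : ℝ) * (ε / (2 * z) * X ^ 5) ≤ z * (ε / (2 * z) * X ^ 5) := by
          gcongr
      _ = ε / 2 * X ^ 5 := by field_simp
  have h8 : F.C / z * X ^ 5 ≤ ε / 2 * X ^ 5 := by gcongr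
  calc _ ≤ _ := h6
    _ ≤ ε / 2 * X ^ 5 + ε / 2 * X ^ 5 := add_le_add ((hub _).trans h7) (h5.trans h8)
    _ = ε * X ^ 5 := by ring

end Fam

end Pool.Agent.U73.LS
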