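import Pool.Agent.U73.LS.FamLaw

set_option autoImplicit false

/-!
# Averages of functions of the integer `r` (helper73)
-/

namespace Pool.Agent.U73.LS

open Finset Filter Topology
open Pool.Agent.U73.LR

namespace Fam

variable (F : Fam)

open Classical in
/-- the sum of `h (ratio)` over the minimal models in the box -/
noncomputable def sm (X : ℝ) (h : ℕ → ℝ) : ℝ :=
  ∑ q ∈ (box X).filter (fun q => F.M q.1 q.2), h (F.r q.1 q.2)

open Classical in
/-- the same for the ratios `≥ N` -/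
noncomputable def sN (X : ℝ) (N : ℕ) (h : ℕ → ℝ) : ℝ :=
  ∑ q ∈ (box X).filter (fun q => F.M q.1 q.2 ∧ N ≤ F.r q.1 q.2), h (F.r q.1 q.2)

theorem sm_split (X : ℝ) (h : ℕ → ℝ) (N : ℕ) :
    F.sm X h = ∑ m ∈ range N, h m * cnt X (F.PM m) + F.sN X N h := by
  classical
  unfold sm sN
  rw [← Finset.sum_filter_not_add_sum_filter ((box X).filter (fun q => F.M q.1 q.2))
    (fun q => N ≤ F.r q.1 q.2), Finset.filter_filter, Finset.filter_filter]
  congr 1
  have hmap : ∀ q ∈ (box X).filter (fun q => F.M q.1 q.2 ∧ ¬ N ≤ F.r q.1 q.2), F.r q.1 q.2 ∈ range N := by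
    intro q hq
    rw [Finset.mem_filter] at hq
    rw [Finset.mem_range]
    omega
  rw [← Finset.sum_fiberwise_of_maps_to hmap]
  refine Finset.sum_congr rfl fun m hm => ?_
  have e : ∀ q ∈ ((box X).filter (fun q => F.M q.1 q.2 ∧ ¬ N ≤ F.r q.1 q.2)).filter
      (fun q => F.r q.1 q.2 = m), h (F.r q.1 q.2) = h m := by
    intro q hq
    rw [Finset.mem_filter] at hq
    rw [hq.2]
  rw [Finset.sum_congr rfl e, Finset.sum_const, nsmul_eq_mul, mul_comm]
  congr 1
  rw [cnt_def X (F.PM m), Finset.filter_filter]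
  congr 2
  ext q
  rw [Finset.mem_filter, Finset.mem_filter]
  unfold PM
  rw [Finset.mem_range] at hm
  constructor
  · rintro ⟨h1, ⟨h2, h3⟩, h4⟩; exact ⟨h1, h2, h4⟩
  · rintro ⟨h1, h2, h3⟩; exact ⟨h1, ⟨h2, by omega⟩, h3⟩

/-- the size of `r` -/
def Le : Prop := ∀ (X : ℝ) (q : ℤ × ℤ), q ∈ box X → F.M q.1 q.2 → (F.r q.1 q.2 : ℝ) ≤ 31 * X ^ 6

/-- the tail, uniformly -/
def Hi : Prop := ∀ ε : ℝ, 0 < ε → ∃ C : ℝ, ∀ X K : ℝ, 1 ≤ X → 1 ≤ K →
  cnt X (fun a b => F.M a b ∧ K ≤ F.r a b) ≤ C * (X ^ 5 * K ^ (-1 + ε) + X ^ (4 + ε))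

/-- the moments of the tail -/
theorem mom (hle : F.Le) (hhi : F.Hi) {s : ℝ} (hs0 : 0 ≤ s) (hs : s < 1 / 6) : ∃ C η : ℝ, 0 < C ∧ 0 < η ∧ ∀ (X : ℝ) (N : ℕ), 1 ≤ X →
    1 ≤ N → F.sN X N (fun m => (m : ℝ) ^ s) ≤ C * X ^ 5 * ((N : ℝ) ^ (-(1 / 2) : ℝ) + X ^ (-η)) := by
  classical
  obtain ⟨r, hr⟩ : ∃ r : ℝ, r = 1 - 6 * s := ⟨_, rfl⟩
  have hr0 : 0 < r := by linarith
  have hr1 : r ≤ 1 := by linarith
  obtain ⟨C, hC⟩ := hhi (r / 4) (by linarith)
  obtain ⟨θ, hθ⟩ : ∃ θ : ℝ, θ = r / 24 := ⟨_, rfl⟩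
  have hθ0 : 0 < θ := by rw [hθ]; linarith
  obtain ⟨u, hu⟩ : ∃ u : ℝ, u = (2 : ℝ) ^ (-(1 / 2) : ℝ) := ⟨_, rfl⟩
  obtain ⟨v, hv⟩ : ∃ v : ℝ, v = (2 : ℝ) ^ (-θ) := ⟨_, rfl⟩
  have hu0 : 0 < u := by rw [hu]; positivity
  have hv0 : 0 < v := by rw [hv]; positivity
  have hu1 : u < 1 := by rw [hu]; exact Real.rpow_lt_one_of_one_lt_of_neg (by norm_num) (by norm_num)
  have hv1 : v < 1 := by rw [hv]; exact Real.rpow_lt_one_of_one_lt_of_neg (by norm_num) (by linarith)
  have hsu := hasSum_geometric_of_lt_one hu0.le hu1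
  have hsv := hasSum_geometric_of_lt_one hv0.le hv1
  obtain ⟨A, hA⟩ : ∃ A : ℝ, A = (1 - u)⁻¹ := ⟨_, rfl⟩
  obtain ⟨B, hB⟩ : ∃ B : ℝ, B = (1 - v)⁻¹ := ⟨_, rfl⟩
  have hA0 : 0 < A := by rw [hA]; exact inv_pos.2 (by linarith)
  have hB0 : 0 < B := by rw [hB]; exact inv_pos.2 (by linarith)
  refine ⟨2 * (|C| + 1) * (A + 31 * B), r / 2, by positivity, by linarith, fun X N hX hN => ?_⟩
  have hX0 : 0 < X := by linarith
  have hNR : (1 : ℝ) ≤ N := by exact_mod_cast hN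
  obtain ⟨J, hJ⟩ : ∃ J : ℕ, 31 * X ^ 6 < 2 ^ J := pow_unbounded_of_one_lt _ (by norm_num)
  obtain ⟨t, ht⟩ : ∃ t : ℕ → ℝ, t = fun j => (2 : ℝ) ^ j * N := ⟨_, rfl⟩
  have ht1 : ∀ j, 1 ≤ t j := by
    intro j
    rw [ht]
    have : (1 : ℝ) ≤ 2 ^ j := one_le_pow₀ (by norm_num)
    show 1 ≤ (2 : ℝ) ^ j * N
    nlinarith
  -- the layers
  have hlayer : F.sN X N (fun m => (m : ℝ) ^ s) ≤
      ∑ j ∈ range J, (2 * t j) ^ s * cnt X (fun a b => F.M a b ∧ t j ≤ F.r a b) := by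
    have e1 : ∀ j ∈ range J, (2 * t j) ^ s * cnt X (fun a b => F.M a b ∧ t j ≤ F.r a b) =
        ∑ q ∈ (box X).filter (fun q => F.M q.1 q.2), (if t j ≤ F.r q.1 q.2 then (2 * t j) ^ s else 0) := by
      intro j _
      rw [cnt_def X (fun a b => F.M a b ∧ t j ≤ F.r a b), ← Finset.sum_filter, Finset.sum_const,
        nsmul_eq_mul, Finset.filter_filter, mul_comm]
    rw [Finset.sum_congr rfl e1, Finset.sum_comm]
    unfold sN
    have e2 : (box X).filter (fun q => F.M q.1 q.2 ∧ N ≤ F.r q.1 q.2) ⊆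
        (box X).filter (fun q => F.M q.1 q.2) := by
      intro q hq
      rw [Finset.mem_filter] at hq ⊢
      exact ⟨hq.1, hq.2.1⟩
    refine le_trans (Finset.sum_le_sum fun q hq => ?_)
      (Finset.sum_le_sum_of_subset_of_nonneg e2 fun q _ _ => Finset.sum_nonneg fun j _ => ?_)
    · rw [Finset.mem_filter] at hq
      obtain ⟨h1, h2, h3⟩ := hq
      have h4 := hle X q h1 h2
      -- the largest `j` with `2 ^ j N ≤ rt`
      have h5 : ∃ j, F.r q.1 q.2 < 2 ^ (j + 1) * N := by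
        refine ⟨F.r q.1 q.2, ?_⟩
        have h6 : F.r q.1 q.2 < 2 ^ (F.r q.1 q.2 + 1) := by
          have := Nat.lt_two_pow_self (n := F.r q.1 q.2)
          rw [pow_succ]; omega
        calc F.r q.1 q.2 < 2 ^ (F.r q.1 q.2 + 1) * 1 := by rw [mul_one]; exact h6
          _ ≤ _ := Nat.mul_le_mul_left _ hN
      obtain ⟨j, hj1, hj2⟩ : ∃ j, F.r q.1 q.2 < 2 ^ (j + 1) * N ∧ 2 ^ j * N ≤ F.r q.1 q.2 := by
        refine ⟨Nat.find h5, Nat.find_spec h5, ?_⟩
        rcases Nat.eq_zero_or_pos (Nat.find h5) with h0 | h0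
        · rw [h0, pow_zero, one_mul]; exact h3
        · have := Nat.find_min h5 (m := Nat.find h5 - 1) (by omega)
          rw [not_lt, Nat.sub_add_cancel h0] at this
          exact this
      have hj1R : (F.r q.1 q.2 : ℝ) ≤ 2 * t j := by
        rw [ht]
        have : (F.r q.1 q.2 : ℝ) ≤ 2 ^ (j + 1) * N := by exact_mod_cast hj1.le
        rw [pow_succ] at this
        linarith
      have hj2R : t j ≤ F.r q.1 q.2 := by
        rw [ht]
        show (2 : ℝ) ^ j * N ≤ F.r q.1 q.2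
        exact_mod_cast hj2
      have hjJ : j ∈ range J := by
        rw [Finset.mem_range]
        have h6 : (2 : ℝ) ^ j ≤ t j := by
          rw [ht]
          have : (0 : ℝ) < 2 ^ j := by positivity
          show (2 : ℝ) ^ j ≤ 2 ^ j * N
          nlinarith
        have h7 : (2 : ℝ) ^ j < 2 ^ J := by linarith
        exact (pow_lt_pow_iff_right₀ (by norm_num)).1 h7
      calc (F.r q.1 q.2 : ℝ) ^ s ≤ (2 * t j) ^ s := Real.rpow_le_rpow (Nat.cast_nonneg _) hj1R hs0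
        _ = (if t j ≤ F.r q.1 q.2 then (2 * t j) ^ s else 0) := by rw [if_pos hj2R]
        _ ≤ _ := by
          refine Finset.single_le_sum (f := fun j => if t j ≤ (F.r q.1 q.2 : ℝ) then (2 * t j) ^ s else 0)
            (fun i _ => ?_) hjJ
          have := ht1 i
          split_ifs <;> positivity
    · have := ht1 j
      split_ifs <;> positivity
  -- one layer
  have hone : ∀ j ∈ range J, (2 * t j) ^ s * cnt X (fun a b => F.M a b ∧ t j ≤ F.r a b) ≤
      2 * (|C| + 1) * X ^ 5 * ((N : ℝ) ^ (-(1 / 2) : ℝ) * u ^ j + 31 * X ^ (-(r / 2)) * v ^ j) := by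
    intro j _
    have htj := ht1 j
    have htj0 : 0 < t j := by linarith
    by_cases hbig : t j ≤ 31 * X ^ 6
    · have h1 := hC X (t j) hX htj
      have h2 : (2 * t j) ^ s ≤ 2 * (t j) ^ s := by
        rw [Real.mul_rpow (by norm_num) htj0.le]
        gcongr
        calc (2 : ℝ) ^ s ≤ 2 ^ (1 : ℝ) := Real.rpow_le_rpow_of_exponent_le (by norm_num) (by linarith)
          _ = 2 := Real.rpow_one _
      have h3 : cnt X (fun a b => F.M a b ∧ t j ≤ F.r a b) ≤
          (|C| + 1) * (X ^ 5 * (t j) ^ (-1 + r / 4) + X ^ (4 + r / 4)) := by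
        refine h1.trans ?_
        have := le_abs_self C
        gcongr
        linarith
      -- first term
      have f1 : (t j) ^ s * (t j) ^ (-1 + r / 4) ≤ (N : ℝ) ^ (-(1 / 2) : ℝ) * u ^ j := by
        rw [← Real.rpow_add htj0]
        calc (t j) ^ (s + (-1 + r / 4)) ≤ (t j) ^ (-(1 / 2) : ℝ) :=
              Real.rpow_le_rpow_of_exponent_le htj (by rw [hr]; linarith)
          _ = (N : ℝ) ^ (-(1 / 2) : ℝ) * u ^ j := by
              rw [ht, hu]
              simp only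
              rw [Real.mul_rpow (by positivity) (by positivity), ← Real.rpow_natCast, ← Real.rpow_natCast,
                ← Real.rpow_mul (by norm_num), ← Real.rpow_mul (by norm_num), mul_comm]
              congr 2
              ring
      -- second term
      have f2 : (t j) ^ s * X ^ (4 + r / 4) ≤ X ^ 5 * (31 * X ^ (-(r / 2)) * v ^ j) := by
        have g1 : (t j) ^ s = (t j) ^ (s + θ) * (t j) ^ (-θ) := by
          rw [← Real.rpow_add htj0]; congr 1; ring
        have g2 : (t j) ^ (s + θ) ≤ 31 * X ^ (6 * (s + θ)) := by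
          calc (t j) ^ (s + θ) ≤ (31 * X ^ 6) ^ (s + θ) :=
                Real.rpow_le_rpow htj0.le hbig (by linarith)
            _ = 31 ^ (s + θ) * X ^ (6 * (s + θ)) := by
                rw [Real.mul_rpow (by norm_num) (by positivity), ← Real.rpow_natCast,
                  ← Real.rpow_mul hX0.le]
                norm_num
            _ ≤ 31 * X ^ (6 * (s + θ)) := by
                gcongr
                calc (31 : ℝ) ^ (s + θ) ≤ 31 ^ (1 : ℝ) :=
                      Real.rpow_le_rpow_of_exponent_le (by norm_num) (by rw [hθ, hr]; linarith)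
                  _ = 31 := Real.rpow_one _
        have g3 : (t j) ^ (-θ) ≤ v ^ j := by
          have g4 : (2 : ℝ) ^ j ≤ t j := by
            rw [ht]
            have : (0 : ℝ) < 2 ^ j := by positivity
            show (2 : ℝ) ^ j ≤ 2 ^ j * N
            nlinarith
          calc (t j) ^ (-θ) ≤ ((2 : ℝ) ^ j) ^ (-θ) :=
                Real.rpow_le_rpow_of_nonpos (by positivity) g4 (by linarith)
            _ = v ^ j := by
                rw [hv, ← Real.rpow_natCast, ← Real.rpow_natCast, ← Real.rpow_mul (by norm_num),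
                  ← Real.rpow_mul (by norm_num)]
                congr 1
                ring
        rw [g1]
        calc (t j) ^ (s + θ) * (t j) ^ (-θ) * X ^ (4 + r / 4) ≤
              (31 * X ^ (6 * (s + θ))) * v ^ j * X ^ (4 + r / 4) := by gcongr
          _ = 31 * v ^ j * (X ^ (6 * (s + θ)) * X ^ (4 + r / 4)) := by ring
          _ = 31 * v ^ j * (X ^ 5 * X ^ (-(r / 2))) := by
              have e5 : X ^ 5 = X ^ (5 : ℝ) := by rw [← Real.rpow_natCast]; norm_num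
              rw [e5, ← Real.rpow_add hX0, ← Real.rpow_add hX0]
              congr 2
              rw [hθ, hr]
              ring
          _ = _ := by ring
      calc (2 * t j) ^ s * cnt X (fun a b => F.M a b ∧ t j ≤ F.r a b) ≤
            (2 * (t j) ^ s) * ((|C| + 1) * (X ^ 5 * (t j) ^ (-1 + r / 4) + X ^ (4 + r / 4))) := by
            have := cnt_nonneg X (fun a b => F.M a b ∧ t j ≤ F.r a b)
            gcongr
        _ = 2 * (|C| + 1) * (X ^ 5 * ((t j) ^ s * (t j) ^ (-1 + r / 4)) + (t j) ^ s * X ^ (4 + r / 4)) := by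
            ring
        _ ≤ 2 * (|C| + 1) * (X ^ 5 * ((N : ℝ) ^ (-(1 / 2) : ℝ) * u ^ j) +
              X ^ 5 * (31 * X ^ (-(r / 2)) * v ^ j)) := by gcongr
        _ = _ := by ring
    · have h1 : cnt X (fun a b => F.M a b ∧ t j ≤ F.r a b) = 0 := by
        rw [cnt_def X (fun a b => F.M a b ∧ t j ≤ F.r a b), Finset.filter_false_of_mem]
        · simp
        · rintro q hq ⟨h1, h2⟩
          exact hbig (h2.trans (hle X q hq h1))
      rw [h1, mul_zero]
      positivity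
  have hfin1 : ∑ j ∈ range J, u ^ j ≤ A := by
    rw [hA]; exact sum_le_hasSum _ (fun _ _ => by positivity) hsu
  have hfin2 : ∑ j ∈ range J, v ^ j ≤ B := by
    rw [hB]; exact sum_le_hasSum _ (fun _ _ => by positivity) hsv
  calc F.sN X N (fun m => (m : ℝ) ^ s) ≤ _ := hlayer
    _ ≤ ∑ j ∈ range J, 2 * (|C| + 1) * X ^ 5 * ((N : ℝ) ^ (-(1 / 2) : ℝ) * u ^ j +
          31 * X ^ (-(r / 2)) * v ^ j) := Finset.sum_le_sum hone
    _ = 2 * (|C| + 1) * X ^ 5 * ((N : ℝ) ^ (-(1 / 2) : ℝ) * (∑ j ∈ range J, u ^ j) +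
          31 * X ^ (-(r / 2)) * (∑ j ∈ range J, v ^ j)) := by
        rw [← Finset.mul_sum, Finset.sum_add_distrib, ← Finset.mul_sum, ← Finset.mul_sum]
    _ ≤ 2 * (|C| + 1) * X ^ 5 * ((N : ℝ) ^ (-(1 / 2) : ℝ) * A + 31 * X ^ (-(r / 2)) * B) := by gcongr
    _ ≤ _ := by
        have p1 : 0 ≤ (N : ℝ) ^ (-(1 / 2) : ℝ) := by positivity
        have p2 : 0 ≤ X ^ (-(r / 2)) := by positivity
        have p3 : (N : ℝ) ^ (-(1 / 2) : ℝ) * A + 31 * X ^ (-(r / 2)) * B ≤
            (A + 31 * B) * ((N : ℝ) ^ (-(1 / 2) : ℝ) + X ^ (-(r / 2))) := by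
          nlinarith [mul_nonneg p1 hB0.le, mul_nonneg p2 hA0.le]
        calc _ ≤ 2 * (|C| + 1) * X ^ 5 * ((A + 31 * B) * ((N : ℝ) ^ (-(1 / 2) : ℝ) + X ^ (-(r / 2)))) := by
              gcongr
          _ = _ := by ring

theorem sN_mono (X : ℝ) (N : ℕ) {f g : ℕ → ℝ} (h : ∀ m, 1 ≤ m → f m ≤ g m) : F.sN X N f ≤ F.sN X N g := by
  classical
  unfold sN
  refine Finset.sum_le_sum fun q hq => h _ ?_
  rw [Finset.mem_filter] at hq
  exact F.r_pos _ _ hq.2.1

theorem sN_abs (X : ℝ) (N : ℕ) (f : ℕ → ℝ) : |F.sN X N f| ≤ F.sN X N (fun m => |f m|) := by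
  classical
  unfold sN
  exact Finset.abs_sum_le_sum_abs _ _

theorem sN_smul (X : ℝ) (N : ℕ) (c : ℝ) (f : ℕ → ℝ) : F.sN X N (fun m => c * f m) = c * F.sN X N f := by
  classical
  unfold sN
  rw [Finset.mul_sum]

theorem sN_nonneg (X : ℝ) (N : ℕ) {f : ℕ → ℝ} (h : ∀ m, 0 ≤ f m) : 0 ≤ F.sN X N f := by
  classical
  unfold sN
  exact Finset.sum_nonneg fun q _ => h _

/-- averages -/
theorem avg (hle : F.Le) (hhi : F.Hi) {δ : ℕ → ℝ} (h0 : ∀ m, 0 ≤ δ m) (hδ0 : δ 0 = 0)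
    (hδ : ∀ m, Tendsto (fun X : ℝ => cnt X (F.PM m) / X ^ 5) atTop (𝓝 (δ m)))
    {s C : ℝ} (hs0 : 0 ≤ s) (hs : s < 1 / 6) (h : ℕ → ℝ) (hh : ∀ m, 1 ≤ m → |h m| ≤ C * (m : ℝ) ^ s) :
    Summable (fun m => h m * δ m) ∧
      Tendsto (fun X : ℝ => F.sm X h / X ^ 5) atTop (𝓝 (∑' m, h m * δ m)) := by
  classical
  obtain ⟨M, η, hM, hη, hmom⟩ := F.mom hle hhi hs0 hs
  have hX5 : ∀ᶠ X : ℝ in atTop, 0 < X ^ 5 := by
    filter_upwards [eventually_gt_atTop (0 : ℝ)] with X hX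
    positivity
  -- summability of the moments
  have hsm : Summable (fun m : ℕ => (m : ℝ) ^ s * δ m) := by
    refine summable_of_sum_range_le (c := 2 * M) (fun m => mul_nonneg (by positivity) (h0 m)) fun N => ?_
    have h1 : Tendsto (fun X : ℝ => ∑ m ∈ range N, (m : ℝ) ^ s * (cnt X (F.PM m) / X ^ 5)) atTop
        (𝓝 (∑ m ∈ range N, (m : ℝ) ^ s * δ m)) :=
      tendsto_finsetSum _ fun m _ => (hδ m).const_mul _
    refine le_of_tendsto h1 ?_
    filter_upwards [eventually_ge_atTop (1 : ℝ), hX5] with X hX h5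
    have hX0 : 0 < X := by linarith
    have e1 : ∑ m ∈ range N, (m : ℝ) ^ s * (cnt X (F.PM m) / X ^ 5) =
        (∑ m ∈ range N, (m : ℝ) ^ s * cnt X (F.PM m)) / X ^ 5 := by
      rw [Finset.sum_div]
      exact Finset.sum_congr rfl fun m _ => by ring
    rw [e1, div_le_iff₀ h5]
    have h2 := F.sm_split X (fun m => (m : ℝ) ^ s) N
    have h3 := F.sm_split X (fun m => (m : ℝ) ^ s) 1
    have h4 := hmom X 1 hX le_rfl
    have h6 : 0 ≤ F.sN X N (fun m => (m : ℝ) ^ s) := F.sN_nonneg _ _ fun m => by positivity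
    rw [Finset.sum_range_one] at h3
    have h7 : cnt X (F.PM 0) = 0 := by
      apply cnt_false
      rintro a b ⟨h1, h2⟩
      have := F.r_pos a b h1
      omega
    rw [h7, mul_zero, zero_add] at h3
    have h8 : X ^ (-η) ≤ 1 := Real.rpow_le_one_of_one_le_of_nonpos hX (by linarith)
    rw [Nat.cast_one, Real.one_rpow] at h4
    have h9 : M * X ^ 5 * (1 + X ^ (-η)) ≤ M * X ^ 5 * (1 + 1) := by gcongr
    linarith
  have hsum : Summable (fun m => h m * δ m) := by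
    refine Summable.of_norm_bounded (hsm.mul_left |C|) fun m => ?_
    rw [Real.norm_eq_abs, abs_mul, abs_of_nonneg (h0 m)]
    rcases Nat.eq_zero_or_pos m with hm | hm
    · subst hm
      rw [hδ0]
      simp
    · rw [← mul_assoc]
      refine mul_le_mul_of_nonneg_right ((hh m hm).trans ?_) (h0 m)
      have := le_abs_self C
      gcongr
  refine ⟨hsum, ?_⟩
  rw [Metric.tendsto_nhds]
  intro ε hε
  have t1 : Tendsto (fun N : ℕ => |∑' m, h (m + N) * δ (m + N)|) atTop (𝓝 |(0 : ℝ)|) :=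
    (tendsto_sum_nat_add (fun m => h m * δ m)).abs
  rw [abs_zero] at t1
  have t2 : Tendsto (fun N : ℕ => |C| * M * (N : ℝ) ^ (-(1 / 2) : ℝ)) atTop (𝓝 0) := by
    have := (tendsto_rpow_neg_atTop (by norm_num : (0 : ℝ) < 1 / 2)).comp tendsto_natCast_atTop_atTop
    have := this.const_mul (|C| * M)
    simpa using this
  obtain ⟨N, hN1, hN2, hN3⟩ := ((eventually_ge_atTop 1).and ((t1.eventually_lt_const
    (by linarith : (0 : ℝ) < ε / 4)).and (t2.eventually_lt_const (by linarith : (0 : ℝ) < ε / 4)))).exists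
  have t3 : Tendsto (fun X : ℝ => |C| * M * X ^ (-η)) atTop (𝓝 0) := by
    have := (tendsto_rpow_neg_atTop hη).const_mul (|C| * M)
    simpa using this
  have t4 : Tendsto (fun X : ℝ => |∑ m ∈ range N, h m * (cnt X (F.PM m) / X ^ 5) - ∑ m ∈ range N, h m * δ m|)
      atTop (𝓝 0) := by
    have : Tendsto (fun X : ℝ => ∑ m ∈ range N, h m * (cnt X (F.PM m) / X ^ 5)) atTop
        (𝓝 (∑ m ∈ range N, h m * δ m)) := tendsto_finsetSum _ fun m _ => (hδ m).const_mul _
    have := (this.sub_const (∑ m ∈ range N, h m * δ m)).abs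
    simpa using this
  filter_upwards [eventually_ge_atTop (1 : ℝ), t3.eventually_lt_const (by linarith : (0 : ℝ) < ε / 4),
    t4.eventually_lt_const (by linarith : (0 : ℝ) < ε / 4), hX5] with X hX g3 g4 h5
  have e1 : F.sm X h / X ^ 5 = ∑ m ∈ range N, h m * (cnt X (F.PM m) / X ^ 5) + F.sN X N h / X ^ 5 := by
    rw [F.sm_split X h N, add_div, Finset.sum_div]
    congr 1
    exact Finset.sum_congr rfl fun m _ => by ring
  have e2 : ∑' m, h m * δ m = ∑ m ∈ range N, h m * δ m + ∑' m, h (m + N) * δ (m + N) :=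
    (hsum.sum_add_tsum_nat_add N).symm
  have e3 : |F.sN X N h / X ^ 5| ≤ |C| * M * (N : ℝ) ^ (-(1 / 2) : ℝ) + |C| * M * X ^ (-η) := by
    rw [abs_div, abs_of_pos h5, div_le_iff₀ h5]
    have k1 : F.sN X N (fun m => |h m|) ≤ |C| * F.sN X N (fun m => (m : ℝ) ^ s) := by
      rw [← F.sN_smul]
      refine F.sN_mono X N fun m hm => (hh m hm).trans ?_
      have := le_abs_self C
      gcongr
    calc |F.sN X N h| ≤ F.sN X N (fun m => |h m|) := F.sN_abs _ _ _
      _ ≤ |C| * F.sN X N (fun m => (m : ℝ) ^ s) := k1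
      _ ≤ |C| * (M * X ^ 5 * ((N : ℝ) ^ (-(1 / 2) : ℝ) + X ^ (-η))) := by
          have := hmom X N hX hN1
          gcongr
      _ = _ := by ring
  rw [Real.dist_eq, e1, e2]
  obtain ⟨x, hx⟩ : ∃ x : ℝ, x = ∑ m ∈ range N, h m * (cnt X (F.PM m) / X ^ 5) := ⟨_, rfl⟩
  obtain ⟨y, hy⟩ : ∃ y : ℝ, y = ∑ m ∈ range N, h m * δ m := ⟨_, rfl⟩
  obtain ⟨z, hz⟩ : ∃ z : ℝ, z = ∑' m, h (m + N) * δ (m + N) := ⟨_, rfl⟩
  obtain ⟨w, hw⟩ : ∃ w : ℝ, w = F.sN X N h / X ^ 5 := ⟨_, rfl⟩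
  rw [← hx, ← hy] at g4
  rw [← hz] at hN2
  rw [← hw] at e3
  rw [← hx, ← hy, ← hz, ← hw]
  have k1 : |x + w - (y + z)| ≤ |x - y| + (|w| + |z|) := by
    calc |x + w - (y + z)| = |(x - y) + (w - z)| := by ring_nf
      _ ≤ |x - y| + |w - z| := abs_add_le _ _
      _ ≤ _ := by
        have := abs_sub w z
        linarith
  linarith

end Fam

end Pool.Agent.U73.LS
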