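import Pool.Agent.U73.LS.Fam

set_option autoImplicit false

/-!
# The law of a positive integer attached to pairs of integers: assembly (helper73)
-/

namespace Pool.Agent.U73.LS

open Finset Filter Topology
open Pool.Agent.U73.LR

namespace Fam

variable (F : Fam)

/-- `r = m` -/
def PM (m : ℕ) (a b : ℤ) : Prop := F.M a b ∧ F.r a b = m

/-- `r ∈ A` -/
def PA (A : Set ℕ) (a b : ℤ) : Prop := F.M a b ∧ F.r a b ∈ A

open Classical in
theorem split (X : ℝ) (A : Set ℕ) (N : ℕ) : cnt X (F.PA A) =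
    ∑ m ∈ range N, (if m ∈ A then cnt X (F.PM m) else 0) +
      cnt X (fun a b => F.PA A a b ∧ N ≤ F.r a b) := by
  induction N with
  | zero =>
    rw [Finset.sum_range_zero, zero_add]
    apply cnt_congr
    intro a b
    simp
  | succ N ih =>
    rw [ih, Finset.sum_range_succ, add_assoc]
    congr 1
    by_cases hN : N ∈ A
    · rw [if_pos hN]
      apply cnt_add
      · intro a b
        unfold PA PM
        constructor
        · rintro ⟨⟨h1, h2⟩, h3⟩
          by_cases h4 : F.r a b = N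
          · left; exact ⟨h1, h4⟩
          · right; exact ⟨⟨h1, h2⟩, by omega⟩
        · rintro (⟨h1, h2⟩ | ⟨⟨h1, h2⟩, h3⟩)
          · exact ⟨⟨h1, by rw [h2]; exact hN⟩, by omega⟩
          · exact ⟨⟨h1, h2⟩, by omega⟩
      · rintro a b ⟨⟨_, h2⟩, ⟨_, h3⟩⟩
        omega
    · rw [if_neg hN, zero_add]
      apply cnt_congr
      intro a b
      unfold PA
      constructor
      · rintro ⟨⟨h1, h2⟩, h3⟩
        refine ⟨⟨h1, h2⟩, ?_⟩
        rcases Nat.lt_or_ge N (F.r a b) with h4 | h4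
        · omega
        · exfalso
          apply hN
          have : F.r a b = N := by omega
          rwa [this] at h2
      · rintro ⟨⟨h1, h2⟩, h3⟩
        exact ⟨⟨h1, h2⟩, by omega⟩

/-- the densities -/
theorem exists_delta : ∃ δ : ℕ → ℝ, δ 0 = 0 ∧
    (∀ m, Tendsto (fun X : ℝ => cnt X (F.PM m) / X ^ 5) atTop (𝓝 (δ m))) ∧
    ∀ m, 1 ≤ m → Tendsto (fun z => 4 * F.W z * ∏ p ∈ Nat.primesBelow z,
      (F.γ p (m.factorization p) - F.γ p (m.factorization p + 1))) atTop (𝓝 (δ m)) := by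
  classical
  have h : ∀ m : ℕ, ∃ D : ℝ, (m = 0 → D = 0) ∧
      Tendsto (fun X : ℝ => cnt X (F.PM m) / X ^ 5) atTop (𝓝 D) ∧
      (1 ≤ m → Tendsto (fun z => 4 * F.W z * ∏ p ∈ Nat.primesBelow z,
        (F.γ p (m.factorization p) - F.γ p (m.factorization p + 1))) atTop (𝓝 D)) := by
    intro m
    by_cases hm : 1 ≤ m
    · obtain ⟨D, h1, h2⟩ := F.dens_pt m hm
      exact ⟨D, fun h => by omega, h1, fun _ => h2⟩
    · have hm0 : m = 0 := by omega
      subst hm0
      refine ⟨0, fun _ => rfl, ?_, fun h => absurd h (by norm_num)⟩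
      have : ∀ X : ℝ, cnt X (F.PM 0) / X ^ 5 = 0 := by
        intro X
        rw [cnt_false X, zero_div]
        rintro a b ⟨h1, h2⟩
        have := F.r_pos a b h1
        omega
      simp only [this]
      exact tendsto_const_nhds
  choose δ h1 h2 h3 using h
  exact ⟨δ, h1 0 rfl, h2, h3⟩

open Classical in
/-- total variation -/
theorem tv {δ : ℕ → ℝ} (h0 : ∀ m, 0 ≤ δ m) (hs : Summable δ)
    (hδ : ∀ m, Tendsto (fun X : ℝ => cnt X (F.PM m) / X ^ 5) atTop (𝓝 (δ m))) (ε : ℝ) (hε : 0 < ε) :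
    ∀ᶠ X : ℝ in atTop, ∀ A : Set ℕ, |cnt X (F.PA A) / X ^ 5 - ∑' m, A.indicator δ m| ≤ ε := by
  obtain ⟨K, hK⟩ := F.tight (ε / 2) (by linarith)
  have t1 : Tendsto (fun N : ℕ => ∑' m, δ (m + N)) atTop (𝓝 0) := tendsto_sum_nat_add δ
  obtain ⟨N, hN1, hN2⟩ := ((eventually_ge_atTop K).and (t1.eventually_lt_const
    (by linarith : (0 : ℝ) < ε / 4))).exists
  have t4 : Tendsto (fun X : ℝ => ∑ m ∈ range N, |cnt X (F.PM m) / X ^ 5 - δ m|) atTop (𝓝 0) := by
    have : Tendsto (fun X : ℝ => ∑ m ∈ range N, |cnt X (F.PM m) / X ^ 5 - δ m|) atTop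
        (𝓝 (∑ m ∈ range N, |δ m - δ m|)) :=
      tendsto_finsetSum _ fun m _ => ((hδ m).sub_const _).abs
    simpa using this
  filter_upwards [eventually_ge_atTop (1 : ℝ), hK N hN1,
    t4.eventually_lt_const (by linarith : (0 : ℝ) < ε / 4)] with X hX h3 h4 A
  have hX0 : 0 < X := by linarith
  have hX5 : 0 < X ^ 5 := by positivity
  have h6 : cnt X (fun a b => F.PA A a b ∧ N ≤ F.r a b) ≤ cnt X (fun a b => F.M a b ∧ N ≤ F.r a b) := by
    apply cnt_mono
    rintro a b ⟨⟨h1, _⟩, h2⟩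
    exact ⟨h1, h2⟩
  have h7 : cnt X (fun a b => F.PA A a b ∧ N ≤ F.r a b) / X ^ 5 ≤ ε / 2 := by
    rw [div_le_iff₀ hX5]
    exact h6.trans h3
  have h8 : 0 ≤ cnt X (fun a b => F.PA A a b ∧ N ≤ F.r a b) / X ^ 5 :=
    div_nonneg (cnt_nonneg _ _) hX5.le
  -- the tail of the limit
  have hsi : Summable (A.indicator δ) := hs.indicator A
  have h9 : ∑' m, A.indicator δ m = ∑ m ∈ range N, A.indicator δ m + ∑' m, A.indicator δ (m + N) :=
    (hsi.sum_add_tsum_nat_add N).symm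
  have h10 : ∑' m, A.indicator δ (m + N) ≤ ∑' m, δ (m + N) := by
    refine Summable.tsum_le_tsum (fun m => ?_) ((summable_nat_add_iff N).2 hsi)
      ((summable_nat_add_iff N).2 hs)
    exact Set.indicator_le_self' (fun _ _ => h0 _) _
  have h11 : 0 ≤ ∑' m, A.indicator δ (m + N) :=
    tsum_nonneg fun m => Set.indicator_nonneg (fun _ _ => h0 _) _
  have h12 : |∑ m ∈ range N, (if m ∈ A then cnt X (F.PM m) else 0) / X ^ 5 -
      ∑ m ∈ range N, A.indicator δ m| ≤ ε / 4 := by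
    rw [← Finset.sum_sub_distrib]
    refine (Finset.abs_sum_le_sum_abs _ _).trans (le_trans (Finset.sum_le_sum fun m _ => ?_) h4.le)
    by_cases hm : m ∈ A
    · rw [if_pos hm, Set.indicator_of_mem hm]
    · rw [if_neg hm, Set.indicator_of_notMem hm, zero_div, sub_zero, abs_zero]
      exact abs_nonneg _
  rw [F.split X A N, add_div, Finset.sum_div, h9]
  rw [abs_le] at h12 ⊢
  constructor
  · linarith [h12.1]
  · linarith [h12.2]

theorem tv_tendsto {δ : ℕ → ℝ} (h0 : ∀ m, 0 ≤ δ m) (hs : Summable δ)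
    (hδ : ∀ m, Tendsto (fun X : ℝ => cnt X (F.PM m) / X ^ 5) atTop (𝓝 (δ m))) (A : Set ℕ) :
    Tendsto (fun X : ℝ => cnt X (F.PA A) / X ^ 5) atTop (𝓝 (∑' m, A.indicator δ m)) := by
  rw [Metric.tendsto_nhds]
  intro ε hε
  filter_upwards [F.tv h0 hs hδ (ε / 2) (by linarith)] with X hX
  rw [Real.dist_eq]
  have := hX A
  linarith

/-- **The law.** -/
theorem law (T : ℝ) (hT0 : 0 < T) (hT2 : Tendsto (fun z => 4 * F.W z) atTop (𝓝 T)) :
    ∃ μ : ℕ → ℝ, (∀ m, 0 ≤ μ m) ∧ μ 0 = 0 ∧ HasSum μ 1 ∧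
    (∀ ε : ℝ, 0 < ε → ∃ X₀ : ℝ, ∀ X : ℝ, X₀ ≤ X → 0 < cnt X F.M ∧ ∀ A : Set ℕ,
      |cnt X (F.PA A) / cnt X F.M - ∑' m, A.indicator μ m| ≤ ε) ∧
    (∀ (S : Finset ℕ) (g : ℕ → ℕ), (∀ p ∈ S, p.Prime) →
      ∑' m, ({m | ∀ p ∈ S, p ^ g p ∣ m} : Set ℕ).indicator μ m = ∏ p ∈ S, F.γ p (g p)) ∧
    (∀ m, 1 ≤ m → Tendsto (fun z => ∏ p ∈ Nat.primesBelow z,
      (F.γ p (m.factorization p) - F.γ p (m.factorization p + 1))) atTop (𝓝 (μ m))) ∧
    Tendsto (fun X : ℝ => cnt X F.M / X ^ 5) atTop (𝓝 T) := by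
  classical
  obtain ⟨δ, d0, d1, d2⟩ := F.exists_delta
  have hfin : ∀ (S : Finset ℕ) (g : ℕ → ℕ), (∀ p ∈ S, p.Prime) →
      Tendsto (fun X : ℝ => cnt X (fun a b => F.M a b ∧ ∀ p ∈ S, F.G p (g p) a b) / X ^ 5) atTop
        (𝓝 (T * ∏ p ∈ S, F.γ p (g p))) := by
    intro S g hS
    obtain ⟨D, hD1, hD2⟩ := F.dens_fin S hS (fun p => F.G p (g p)) (fun p => F.f p (g p))
      (fun p _ => F.per p (g p)) (fun p _ a b h => F.anti' h)
    have h1 : D = T * ∏ p ∈ S, (rc (p ^ F.f p (g p)) (F.G p (g p)) / F.s p) :=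
      tendsto_nhds_unique hD2 (hT2.mul_const _)
    have h2 : ∏ p ∈ S, (rc (p ^ F.f p (g p)) (F.G p (g p)) / F.s p) = ∏ p ∈ S, F.γ p (g p) := by
      refine Finset.prod_congr rfl fun p hp => ?_
      rw [F.rcG p (hS p hp), mul_div_cancel_left₀ _ (F.s_pos p (hS p hp)).ne']
    rw [h2] at h1
    rw [← h1]
    exact hD1
  have hT1 : Tendsto (fun X : ℝ => cnt X F.M / X ^ 5) atTop (𝓝 T) := by
    have h1 := hfin ∅ (fun _ => 0) (by simp)
    rw [Finset.prod_empty, mul_one] at h1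
    refine h1.congr fun X => ?_
    congr 1
    exact cnt_congr X fun a b => by simp
  have hX5 : ∀ᶠ X : ℝ in atTop, 0 < X ^ 5 := by
    filter_upwards [eventually_gt_atTop (0 : ℝ)] with X hX
    positivity
  have h0 : ∀ m, 0 ≤ δ m := fun m => ge_of_tendsto (d1 m) (by
    filter_upwards [hX5] with X h5
    exact div_nonneg (cnt_nonneg _ _) h5.le)
  have hs : Summable δ := by
    refine summable_of_sum_range_le (c := T) h0 fun N => ?_
    refine le_of_tendsto_of_tendsto (tendsto_finsetSum _ fun m _ => d1 m) hT1 ?_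
    filter_upwards [hX5] with X h5
    rw [← Finset.sum_div]
    have h1 := F.split X Set.univ N
    simp only [Set.mem_univ, if_true] at h1
    have h2 : cnt X (F.PA Set.univ) = cnt X F.M := cnt_congr X fun a b => by simp [PA]
    have h3 := cnt_nonneg X (fun a b => F.PA Set.univ a b ∧ N ≤ F.r a b)
    gcongr
    linarith
  have htot : ∑' m, δ m = T := by
    have h1 := F.tv_tendsto h0 hs d1 Set.univ
    have h2 : ∀ X, cnt X (F.PA Set.univ) = cnt X F.M := fun X => cnt_congr X fun a b => by simp [PA]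
    simp only [h2, Set.indicator_univ] at h1
    exact tendsto_nhds_unique h1 hT1
  have hμ : ∀ A : Set ℕ, ∑' m, A.indicator (fun m => δ m / T) m = (∑' m, A.indicator δ m) / T := by
    intro A
    rw [← tsum_div_const]
    refine tsum_congr fun m => ?_
    by_cases hm : m ∈ A
    · rw [Set.indicator_of_mem hm, Set.indicator_of_mem hm]
    · rw [Set.indicator_of_notMem hm, Set.indicator_of_notMem hm, zero_div]
  refine ⟨fun m => δ m / T, fun m => div_nonneg (h0 m) hT0.le, by simp [d0], ?_, ?_, ?_, ?_, hT1⟩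
  · have h1 : HasSum δ T := by rw [← htot]; exact hs.hasSum
    have h2 := h1.div_const T
    rwa [div_self hT0.ne'] at h2
  · intro ε hε
    have e1 : 0 < min (ε * T / 4) (T / 2) := lt_min (by positivity) (by positivity)
    obtain ⟨X₀, hX₀⟩ := eventually_atTop.1 ((F.tv h0 hs d1 _ e1).and hX5)
    refine ⟨X₀, fun X hX => ?_⟩
    obtain ⟨h1, h2⟩ := hX₀ X hX
    obtain ⟨e, he⟩ : ∃ e : ℝ, e = min (ε * T / 4) (T / 2) := ⟨_, rfl⟩
    have he1 : e ≤ ε * T / 4 := by rw [he]; exact min_le_left _ _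
    have he2 : e ≤ T / 2 := by rw [he]; exact min_le_right _ _
    rw [← he] at h1 e1
    have hu : cnt X (F.PA Set.univ) = cnt X F.M := cnt_congr X fun a b => by simp [PA]
    have h3 := h1 Set.univ
    rw [Set.indicator_univ, htot, hu] at h3
    obtain ⟨y, hy⟩ : ∃ y : ℝ, y = cnt X F.M / X ^ 5 := ⟨_, rfl⟩
    rw [← hy] at h3
    have h4 : T / 2 ≤ y := by
      have := (abs_le.1 h3).1
      linarith
    have hy0 : 0 < y := by linarith
    have hcM : 0 < cnt X F.M := by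
      rw [hy] at hy0
      exact (div_pos_iff_of_pos_right h2).1 hy0
    refine ⟨hcM, fun A => ?_⟩
    have h5 := h1 A
    obtain ⟨x, hx⟩ : ∃ x : ℝ, x = cnt X (F.PA A) / X ^ 5 := ⟨_, rfl⟩
    obtain ⟨s, hs'⟩ : ∃ s : ℝ, s = ∑' m, A.indicator δ m := ⟨_, rfl⟩
    rw [← hx, ← hs'] at h5
    have h6 : cnt X (F.PA A) / cnt X F.M = x / y := by
      rw [hx, hy, div_div_div_cancel_right₀ h2.ne']
    rw [hμ, h6, ← hs']
    have hsT : s ≤ T := by
      rw [hs', ← htot]
      exact Summable.tsum_le_tsum (fun m => Set.indicator_le_self' (fun _ _ => h0 _) _)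
        (hs.indicator A) hs
    have hs0 : 0 ≤ s := by
      rw [hs']; exact tsum_nonneg fun m => Set.indicator_nonneg (fun _ _ => h0 _) _
    have e3 : x / y - s / T = ((x - s) * T + s * (T - y)) / (y * T) := by
      field_simp
      ring
    rw [e3, abs_div, abs_of_pos (mul_pos hy0 hT0), div_le_iff₀ (mul_pos hy0 hT0)]
    have h7 : |(x - s) * T + s * (T - y)| ≤ e * T + T * e := by
      refine (abs_add_le _ _).trans (add_le_add ?_ ?_)
      · rw [abs_mul, abs_of_pos hT0]; gcongr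
      · rw [abs_mul, abs_of_nonneg hs0, abs_sub_comm]
        exact mul_le_mul hsT h3 (abs_nonneg _) hT0.le
    refine h7.trans ?_
    have h8 : e * 2 ≤ ε * y := by
      calc e * 2 ≤ ε * T / 4 * 2 := by gcongr
        _ = ε * (T / 2) := by ring
        _ ≤ ε * y := by gcongr
    calc e * T + T * e = (e * 2) * T := by ring
      _ ≤ (ε * y) * T := by gcongr
      _ = ε * (y * T) := by ring
  · intro S g hS
    have h1 := hfin S g hS
    have h2 := F.tv_tendsto h0 hs d1 {m | ∀ p ∈ S, p ^ g p ∣ m}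
    have h3 := tendsto_nhds_unique h2 (h1.congr fun X => by
      congr 1
      apply cnt_congr
      intro a b
      unfold PA
      simp only [Set.mem_ofPred_eq]
      constructor
      · rintro ⟨k1, k2⟩
        exact ⟨k1, fun p hp => (F.fact a b k1 p (hS p hp) (g p)).2 (k2 p hp)⟩
      · rintro ⟨k1, k2⟩
        exact ⟨k1, fun p hp => (F.fact a b k1 p (hS p hp) (g p)).1 (k2 p hp)⟩)
    rw [hμ, h3, mul_div_cancel_left₀ _ hT0.ne']
  · intro m hm
    have h1 := (d2 m hm).div hT2 hT0.ne'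
    refine h1.congr' ?_
    have h2 : ∀ᶠ z in atTop, 0 < 4 * F.W z := hT2.eventually_const_lt hT0
    filter_upwards [h2] with z hz
    simp only [Pi.div_apply]
    rw [mul_div_cancel_left₀ _ hz.ne']

end Fam

end Pool.Agent.U73.LS
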