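import Pool.Agent.U73.LS.FamAvg
import Pool.Agent.U73.LS.Stm2

set_option autoImplicit false

/-!
# The law of `|Δ| / N` over the semistable curves: assembly (helper73)
-/

namespace Pool.Agent.U73.LS

open Finset Filter Topology
open Pool.Agent.U73.LR

theorem exists_fam (h1 : S_SMALL) (h2 : S_BIG) (h3 : S_FACT) (h4 : S_DEN) :
    ∃ F : Fam, F.M = Sm ∧ F.r = rs ∧ F.γ = gd ∧ F.s = sd := by
  obtain ⟨C, hC, hb⟩ := h2
  have hpow : ∀ (n k : ℕ) (x : ℤ), (n : ℤ) ^ (k + 1) ∣ x → (n : ℤ) ^ k ∣ x := fun n k x h =>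
    (pow_dvd_pow _ (Nat.le_succ k)).trans h
  have hle : ∀ (z : ℕ) (X : ℝ), 5 ≤ z → 0 < X → (24 : ℝ) / z * X ^ 5 ≤ (24 + C) / z * X ^ 5 ∧
      C / z * X ^ 5 ≤ (24 + C) / z * X ^ 5 := by
    intro z X hz hX
    constructor
    · gcongr; linarith
    · gcongr; linarith
  refine ⟨{ M := Sm, r := rs, Z := fun a b => a ^ 3 = b ^ 2, G := G, f := fun _ g => g + 7, s := sd,
            γ := gd, C := 24 + C, anti := ?_, per := h4.1, M_iff := ?_, r_pos := ?_, fact := h3.2,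
            s_pos := ?_, γ0 := ?_, γlim := ?_, rcG := h4.2, small := ?_, big := ?_ }, rfl, rfl, rfl, rfl⟩
  · rintro p g a b ⟨k1, k2⟩
    refine ⟨k1, ?_⟩
    rcases k2 with k2 | k2
    · omega
    · right
      have e : g + 1 + 1 + ee p = (g + 1 + ee p) + 1 := by ring
      rw [e] at k2
      exact hpow _ _ _ k2
  · intro a b
    rw [sm_iff]
    constructor
    · rintro ⟨k1, k2⟩
      exact ⟨k1, fun p hp => ⟨k2 p hp, Or.inl rfl⟩⟩
    · rintro ⟨k1, k2⟩
      exact ⟨k1, fun p hp => (k2 p hp).1⟩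
  · intro a b h
    exact (h3.1 a b h).2.2.2
  · intro p hp
    unfold sd
    split_ifs with e2 e3
    · norm_num
    · norm_num
    · have h2 : (1 : ℝ) < p := by exact_mod_cast hp.one_lt
      have : 1 / (p : ℝ) ^ 2 < 1 := by
        rw [div_lt_one (by positivity)]
        exact one_lt_pow₀ h2 (by norm_num)
      linarith
  · intro p _
    unfold gd
    rw [if_pos rfl]
  · intro p hp
    have h2 : (1 : ℝ) < p := by exact_mod_cast hp.one_lt
    have h0 : (0 : ℝ) < p := by linarith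
    have k1 : Tendsto (fun g : ℕ => (1 / (p : ℝ)) ^ g * (1 / ((p : ℝ) + 1))) atTop (𝓝 (0 * (1 / ((p : ℝ) + 1)))) :=
      (tendsto_pow_atTop_nhds_zero_of_lt_one (by positivity) (by rw [div_lt_one h0]; exact h2)).mul_const _
    rw [zero_mul] at k1
    refine k1.congr' ?_
    filter_upwards [eventually_ge_atTop 1] with g hg
    unfold gd
    rw [if_neg (by omega), one_div_pow, one_div_mul_one_div]
  · intro z hz
    filter_upwards [h1 z hz, eventually_gt_atTop (0 : ℝ)] with X hX hX0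
    refine le_trans (le_of_eq ?_) (hX.trans (hle z X hz hX0).1)
    apply cnt_congr
    intro a b
    constructor
    · rintro (k | ⟨p, k1, k2, k3⟩)
      · left; exact k
      · right
        refine ⟨p, k1, k2, ?_⟩
        by_contra hcon
        apply k3
        refine ⟨?_, Or.inl rfl⟩
        unfold Sp
        rw [if_neg (by omega), if_neg (by omega)]
        exact hcon
    · rintro (k | ⟨p, k1, k2, k3⟩)
      · left; exact k
      · right
        refine ⟨p, k1, k2, ?_⟩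
        rintro ⟨k4, -⟩
        unfold Sp at k4
        rw [if_neg (by omega), if_neg (by omega)] at k4
        exact k4 k3
  · intro z hz
    filter_upwards [hb z hz, eventually_gt_atTop (0 : ℝ)] with X hX hX0
    refine le_trans ?_ (hX.trans (hle z X hz hX0).2)
    apply cnt_mono
    rintro a b ⟨k1, p, k2, k3, k4⟩
    refine ⟨((sm_iff a b).1 k1).1, p, k2, k3, ?_⟩
    have k5 := (h3.2 a b k1 p k2 1).1 (by rw [pow_one]; exact k4)
    obtain ⟨k6, k7⟩ := k5
    have e : ee p = 0 := by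
      unfold ee
      rw [if_neg (by omega), if_neg (by omega)]
    rw [e] at k7
    rcases k7 with k7 | k7
    · omega
    · refine ⟨?_, k7⟩
      intro k8
      unfold Sp at k6
      rw [if_neg (by omega), if_neg (by omega)] at k6
      apply k6
      refine ⟨k8, ?_⟩
      have hpi : Prime (p : ℤ) := Nat.prime_iff_prime_int.1 k2
      have k9 : (p : ℤ) ∣ b ^ 2 := by
        have h5 : (p : ℤ) ∣ a ^ 3 - b ^ 2 := (dvd_pow_self _ (by norm_num)).trans k7
        have h6 : (p : ℤ) ∣ a ^ 3 := dvd_pow k8 (by norm_num)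
        have : b ^ 2 = a ^ 3 - (a ^ 3 - b ^ 2) := by ring
        rw [this]
        exact dvd_sub h6 h5
      exact hpi.dvd_of_dvd_pow k9

theorem le_sm (h3 : S_FACT) {X : ℝ} {q : ℤ × ℤ} (hq : q ∈ box X) (hm : Sm q.1 q.2) :
    (rs q.1 q.2 : ℝ) ≤ 31 * X ^ 6 := by
  obtain ⟨h1, h2⟩ := (mem_box X q).1 hq
  obtain ⟨k1, k2, k3, k4⟩ := h3.1 _ _ hm
  have hN : 1 ≤ Nz q.1 q.2 := by
    rw [Nat.one_le_iff_ne_zero]
    intro h0
    rw [h0, mul_zero] at k3
    exact k2 (Int.natAbs_eq_zero.1 k3)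
  have e1 : |(q.1 : ℝ) ^ 3| ≤ X ^ 6 := by
    rw [abs_pow]
    calc |(q.1 : ℝ)| ^ 3 ≤ (X ^ 2) ^ 3 := by gcongr
      _ = X ^ 6 := by ring
  have e2 : |(q.2 : ℝ) ^ 2| ≤ X ^ 6 := by
    rw [abs_pow]
    calc |(q.2 : ℝ)| ^ 2 ≤ (X ^ 3) ^ 2 := by gcongr
      _ = X ^ 6 := by ring
  have k5 : (1728 : ℝ) * (Dz q.1 q.2 : ℝ) = (q.1 : ℝ) ^ 3 - (q.2 : ℝ) ^ 2 := by exact_mod_cast k1
  have k6 : |(Dz q.1 q.2 : ℝ)| = (rs q.1 q.2 : ℝ) * (Nz q.1 q.2 : ℝ) := by
    rw [← Int.cast_abs, Int.abs_eq_natAbs, k3]; push_cast; ring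
  have k7 : (rs q.1 q.2 : ℝ) ≤ |(Dz q.1 q.2 : ℝ)| := by
    rw [k6]
    have : (1 : ℝ) ≤ Nz q.1 q.2 := by exact_mod_cast hN
    have h0 : (0 : ℝ) ≤ rs q.1 q.2 := Nat.cast_nonneg _
    nlinarith
  have k8 : 1728 * |(Dz q.1 q.2 : ℝ)| ≤ X ^ 6 + X ^ 6 := by
    calc 1728 * |(Dz q.1 q.2 : ℝ)| = |(1728 : ℝ) * (Dz q.1 q.2 : ℝ)| := by
          rw [abs_mul, abs_of_pos (by norm_num : (0 : ℝ) < 1728)]
      _ = |(q.1 : ℝ) ^ 3 - (q.2 : ℝ) ^ 2| := by rw [k5]
      _ ≤ _ := (abs_sub _ _).trans (add_le_add e1 e2)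
  have k9 : 0 ≤ X ^ 6 := by
    have : X ^ 6 = (X ^ 3) ^ 2 := by ring
    rw [this]; positivity
  have k10 := abs_nonneg (Dz q.1 q.2 : ℝ)
  linarith

open Classical in
/-- the sum of `h (ratio)` over the semistable pairs in the box -/
noncomputable def smS (X : ℝ) (h : ℕ → ℝ) : ℝ :=
  ∑ q ∈ (box X).filter (fun q => Sm q.1 q.2), h (rs q.1 q.2)

/-- the statement of the law -/
def S_MAIN : Prop :=
    Tendsto (fun X : ℝ => cnt X Sm / X ^ 5) atTop (𝓝 (1 / (144 * Real.pi ^ 2))) ∧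
    ∃ μ : ℕ → ℝ, (∀ m, 0 ≤ μ m) ∧ μ 0 = 0 ∧ HasSum μ 1 ∧
    (∀ ε : ℝ, 0 < ε → ∃ X₀ : ℝ, ∀ X : ℝ, X₀ ≤ X → 0 < cnt X Sm ∧ ∀ A : Set ℕ,
      |cnt X (fun a b => Sm a b ∧ rs a b ∈ A) / cnt X Sm - ∑' m, A.indicator μ m| ≤ ε) ∧
    (∀ n : ℕ, 1 ≤ n → ∑' m, ({m | n ∣ m} : Set ℕ).indicator μ m =
      1 / ((n : ℝ) * ∏ p ∈ n.primeFactors, ((p : ℝ) + 1))) ∧
    Tendsto (fun z => ∏ p ∈ Nat.primesBelow z, (1 - 1 / ((p : ℝ) * ((p : ℝ) + 1)))) atTop (𝓝 (μ 1)) ∧
    (∀ n : ℕ, 1 ≤ n → μ n = μ 1 / n * ∏ p ∈ n.primeFactors, (((p : ℝ) - 1) / ((p : ℝ) ^ 2 + p - 1))) ∧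
    (∀ K : ℕ, 1 ≤ K → 1 / (6 * (K : ℝ)) ≤ ∑' m, ({m | K ≤ m} : Set ℕ).indicator μ m) ∧
    (∀ ε : ℝ, 0 < ε → ∃ C : ℝ, ∀ K : ℕ, 1 ≤ K →
      ∑' m, ({m | K ≤ m} : Set ℕ).indicator μ m ≤ C * (K : ℝ) ^ (-1 + ε)) ∧
    (∀ (s C : ℝ) (h : ℕ → ℝ), 0 ≤ s → s < 1 / 6 → (∀ m, 1 ≤ m → |h m| ≤ C * (m : ℝ) ^ s) →
      Summable (fun m => h m * μ m) ∧
        Tendsto (fun X : ℝ => smS X h / cnt X Sm) atTop (𝓝 (∑' m, h m * μ m))) ∧
    ((∑' m : ℕ, Real.log m * μ m : ℝ) : ℂ) = - deriv riemannZeta 2 / riemannZeta 2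

/-- **the law** -/
theorem main (h1 : S_SMALL) (h2 : S_BIG) (h3 : S_FACT) (h4 : S_DEN) (h5 : S_EUL) (h6 : S_HI)
    (h7 : S_LOGM) (h8 : S_TAIL) : S_MAIN := by
  classical
  obtain ⟨F, e1, e2, e3, e4⟩ := exists_fam h1 h2 h3 h4
  have hW : ∀ z, F.W z = ∏ p ∈ Nat.primesBelow z, sd p := by
    intro z; unfold Fam.W; rw [e4]
  have hT0 : 0 < 1 / (144 * Real.pi ^ 2) := by
    have := Real.pi_pos
    positivity
  have hT : Tendsto (fun z => 4 * F.W z) atTop (𝓝 (1 / (144 * Real.pi ^ 2))) := by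
    simp only [hW]; exact h5
  obtain ⟨μ, k1, k2, k3, k4, k5, k6, k7⟩ := F.law _ hT0 hT
  rw [e1] at k4 k7
  have hPA : ∀ (X : ℝ) (A : Set ℕ), cnt X (F.PA A) = cnt X (fun a b => Sm a b ∧ rs a b ∈ A) := by
    intro X A
    unfold Fam.PA
    rw [e1, e2]
  simp only [hPA] at k4
  have hdiv : ∀ n : ℕ, 1 ≤ n → ∑' m, ({m | n ∣ m} : Set ℕ).indicator μ m =
      1 / ((n : ℝ) * ∏ p ∈ n.primeFactors, ((p : ℝ) + 1)) := by
    intro n hn
    have l1 := k5 n.primeFactors n.factorization (fun p hp => Nat.prime_of_mem_primeFactors hp)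
    have l2 : ({m | n ∣ m} : Set ℕ) = {m | ∀ p ∈ n.primeFactors, p ^ n.factorization p ∣ m} := by
      ext m
      simp only [Set.mem_ofPred_eq]
      constructor
      · intro h p _
        exact (Nat.ordProj_dvd n p).trans h
      · intro h
        rw [← Nat.prod_factorization_pow_eq_self (by omega : n ≠ 0), Finsupp.prod]
        apply Finset.prod_dvd_of_isRelPrime
        · intro p hp q hq hpq
          rw [Finset.mem_coe, Nat.support_factorization] at hp hq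
          apply Nat.coprime_iff_isRelPrime.1
          apply Nat.Coprime.pow
          exact (Nat.coprime_primes (Nat.prime_of_mem_primeFactors hp)
            (Nat.prime_of_mem_primeFactors hq)).2 hpq
        · intro p hp
          rw [Nat.support_factorization] at hp
          exact h p hp
    rw [l2, l1, e3]
    have l3 : ∀ p ∈ n.primeFactors, gd p (n.factorization p) =
        1 / ((p : ℝ) ^ n.factorization p * ((p : ℝ) + 1)) := by
      intro p hp
      have : 0 < n.factorization p :=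
        (Nat.prime_of_mem_primeFactors hp).factorization_pos_of_dvd (by omega)
          (Nat.dvd_of_mem_primeFactors hp)
      unfold gd
      rw [if_neg (by omega)]
    rw [Finset.prod_congr rfl l3, Finset.prod_div_distrib, Finset.prod_const_one,
      Finset.prod_mul_distrib]
    congr 2
    have l4 := Nat.prod_factorization_pow_eq_self (by omega : n ≠ 0)
    rw [Finsupp.prod, Nat.support_factorization] at l4
    have l5 := congrArg (fun x : ℕ => (x : ℝ)) l4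
    push_cast at l5
    exact l5
  have k6' : ∀ m, 1 ≤ m → Tendsto (fun z => ∏ p ∈ Nat.primesBelow z,
      (gd p (m.factorization p) - gd p (m.factorization p + 1))) atTop (𝓝 (μ m)) := by
    intro m hm
    have := k6 m hm
    rw [e3] at this
    exact this
  obtain ⟨t1, t2, t3, t4⟩ := h8 μ k1 k2 k3 hdiv k6'
  have hLe : F.Le := by
    intro X q hq hm
    rw [e1] at hm
    rw [e2]
    exact le_sm h3 hq hm
  have hHi : F.Hi := by
    unfold Fam.Hi
    rw [e1, e2]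
    exact h6
  have hmean : ∀ (s C : ℝ) (h : ℕ → ℝ), 0 ≤ s → s < 1 / 6 → (∀ m, 1 ≤ m → |h m| ≤ C * (m : ℝ) ^ s) →
      Summable (fun m => h m * μ m) ∧
        Tendsto (fun X : ℝ => smS X h / cnt X Sm) atTop (𝓝 (∑' m, h m * μ m)) := by
    intro s C h hs0 hs hh
    obtain ⟨T, hT'⟩ : ∃ T : ℝ, T = 1 / (144 * Real.pi ^ 2) := ⟨_, rfl⟩
    rw [← hT'] at hT0 k7
    have hpt : ∀ m, Tendsto (fun X : ℝ => cnt X (F.PM m) / X ^ 5) atTop (𝓝 (T * μ m)) := by
      intro m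
      have l1 : Tendsto (fun X : ℝ => cnt X (fun a b => Sm a b ∧ rs a b ∈ ({m} : Set ℕ)) / cnt X Sm)
          atTop (𝓝 (∑' k, ({m} : Set ℕ).indicator μ k)) := by
        rw [Metric.tendsto_nhds]
        intro ε hε
        obtain ⟨X₀, hX₀⟩ := k4 (ε / 2) (by linarith)
        filter_upwards [eventually_ge_atTop X₀] with X hX
        rw [Real.dist_eq]
        have := (hX₀ X hX).2 {m}
        linarith
      have l2 : ∑' k, ({m} : Set ℕ).indicator μ k = μ m := by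
        rw [tsum_eq_single m]
        · exact Set.indicator_of_mem rfl _
        · intro k hk
          exact Set.indicator_of_notMem (by simpa using hk) _
      rw [l2] at l1
      have l3 := k7.mul l1
      refine l3.congr' ?_
      obtain ⟨X₀, hX₀⟩ := k4 1 one_pos
      filter_upwards [eventually_ge_atTop X₀, eventually_gt_atTop (0 : ℝ)] with X hX hX0
      have l4 := (hX₀ X hX).1
      have l5 : cnt X (F.PM m) = cnt X (fun a b => Sm a b ∧ rs a b ∈ ({m} : Set ℕ)) := by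
        unfold Fam.PM
        rw [e1, e2]
        exact cnt_congr X fun a b => by simp
      rw [l5]
      field_simp
    obtain ⟨q1, q2⟩ := F.avg hLe hHi (δ := fun m => T * μ m) (fun m => mul_nonneg hT0.le (k1 m))
      (by simp [k2]) hpt hs0 hs h hh
    have e : (fun m => h m * (T * μ m)) = fun m => T * (h m * μ m) := by funext m; ring
    rw [e] at q1 q2
    have q3 : Summable (fun m => h m * μ m) := (summable_mul_left_iff hT0.ne').1 q1
    refine ⟨q3, ?_⟩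
    rw [tsum_mul_left] at q2
    have q4 := q2.div k7 hT0.ne'
    rw [mul_div_cancel_left₀ _ hT0.ne'] at q4
    refine q4.congr' ?_
    filter_upwards [eventually_gt_atTop (0 : ℝ)] with X hX
    simp only [Pi.div_apply]
    have hX5 : X ^ 5 ≠ 0 := by positivity
    have hsm : F.sm X h = smS X h := by
      unfold Fam.sm smS
      rw [e1, e2]
    rw [div_div_div_cancel_right₀ hX5, hsm]
  refine ⟨k7, μ, k1, k2, k3, k4, hdiv, t1, t2, t3, t4, hmean, ?_⟩
  refine h7 μ k1 k2 k3 hdiv ?_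
  refine (hmean (1 / 10) 10 (fun m : ℕ => Real.log m) (by norm_num) (by norm_num) fun m hm => ?_).1
  have hm1 : (1 : ℝ) ≤ m := by exact_mod_cast hm
  rw [abs_of_nonneg (Real.log_nonneg hm1)]
  have := Real.log_le_rpow_div (by linarith : (0 : ℝ) ≤ m) (by norm_num : (0 : ℝ) < 1 / 10)
  calc Real.log m ≤ (m : ℝ) ^ (1 / 10 : ℝ) / (1 / 10) := this
    _ = 10 * (m : ℝ) ^ (1 / 10 : ℝ) := by ring

end Pool.Agent.U73.LS
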